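import Pool.Agent.Helper21.AC0p.Defs

/-!
Formulas over a set of formulas, when formulas with few variables are free.
-/

namespace Pool.Agent.Helper21.AC0p

/-- The variables of a formula. -/
def Fm.vars : Fm → Finset ℕ
  | .var i => {i}
  | .neg A => Fm.vars A
  | .or _ f => Finset.univ.biUnion fun i => Fm.vars (f i)
  | .mod _ f => Finset.univ.biUnion fun i => Fm.vars (f i)

/-- Nesting of connectives, when all formulas with at most `m` variables count as atoms. -/
def Fm.depthOver (m : ℕ) : Fm → ℕ
  | .var _ => 0
  | .neg A => if (Fm.neg A).vars.card ≤ m then 0 else Fm.depthOver m A + 1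
  | .or k f => if (Fm.or k f).vars.card ≤ m then 0 else
      (Finset.univ.sup fun i => Fm.depthOver m (f i)) + 1
  | .mod k f => if (Fm.mod k f).vars.card ≤ m then 0 else
      (Finset.univ.sup fun i => Fm.depthOver m (f i)) + 1

/-- The formula is built from variables, from `MOD_p` formulas with at most `m` variables, and
from members of `G`, by negations and disjunctions. -/
def Fm.OverV (m : ℕ) (G : Finset Fm) : Fm → Prop
  | .var _ => True
  | .neg A => Fm.neg A ∈ G ∨ Fm.OverV m G A
  | .or k f => Fm.or k f ∈ G ∨ ∀ i, Fm.OverV m G (f i)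
  | .mod k f => Fm.mod k f ∈ G ∨ (Fm.mod k f).vars.card ≤ m

/-- The number of distinct disjunctions and `MOD_p` formulas that occur (as subformulas) in
`π`. -/
noncomputable def numOrMod (π : List Fm) : ℕ :=
  {B : Fm | ∃ (k : ℕ) (f : Fin k → Fm), (B = Fm.or k f ∨ B = Fm.mod k f) ∧
    ∃ A ∈ π, Fm.IsSub B A}.ncard

end Pool.Agent.Helper21.AC0p
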