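import Pool.Agent.Helper21.Mix.Force
import Pool.Agent.Helper21.Mix.CountCNF
import Pool.Agent.Helper21.Sml.Defs

/-!
The forcing relation when formulas with few variables are free.
-/

namespace Pool.Agent.Helper21.Sml

open scoped BigOperators Classical
open Pool.Agent.Helper21.AC0p Pool.Agent.Helper21.Mix

set_option linter.unusedSectionVars false

/-- Nesting of disjunctions above formulas with few variables. -/
def ordepM (m : ℕ) : Fm → ℕ
  | .var _ => 0
  | .neg A => ordepM m A
  | .or k f => if (Fm.or k f).vars.card ≤ m then 0 else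
      (Finset.univ.sup fun i => ordepM m (f i)) + 1
  | .mod k f => if (Fm.mod k f).vars.card ≤ m then 0 else
      Finset.univ.sup fun i => ordepM m (f i)

theorem vars_sub_or {k : ℕ} {f : Fin k → Fm} (i : Fin k) : (f i).vars ⊆ (Fm.or k f).vars := by
  intro a ha
  simp only [Fm.vars]
  exact Finset.mem_biUnion.2 ⟨i, Finset.mem_univ i, ha⟩

theorem vars_sub_mod {k : ℕ} {f : Fin k → Fm} (i : Fin k) : (f i).vars ⊆ (Fm.mod k f).vars := by
  intro a ha
  simp only [Fm.vars]
  exact Finset.mem_biUnion.2 ⟨i, Finset.mem_univ i, ha⟩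

theorem vars_sub {A B : Fm} (h : Fm.IsSub B A) : B.vars ⊆ A.vars := by
  induction h with
  | refl => exact le_refl _
  | neg _ ih => exact ih
  | or i _ ih => exact ih.trans (vars_sub_or i)
  | mod i _ ih => exact ih.trans (vars_sub_mod i)

theorem small_or {m k : ℕ} {f : Fin k → Fm} (h : (Fm.or k f).vars.card ≤ m) (i : Fin k) :
    (f i).vars.card ≤ m := (Finset.card_le_card (vars_sub_or i)).trans h

theorem small_mod {m k : ℕ} {f : Fin k → Fm} (h : (Fm.mod k f).vars.card ≤ m) (i : Fin k) :
    (f i).vars.card ≤ m := (Finset.card_le_card (vars_sub_mod i)).trans h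

theorem ordepM_small {m : ℕ} {A : Fm} (h : A.vars.card ≤ m) : ordepM m A = 0 := by
  induction A with
  | var i => rfl
  | neg A ih => exact ih h
  | or k f _ => simp only [ordepM]; rw [if_pos h]
  | mod k f _ => simp only [ordepM]; rw [if_pos h]

theorem ordepM_or {m k : ℕ} {f : Fin k → Fm} (h : ¬ (Fm.or k f).vars.card ≤ m) :
    ordepM m (.or k f) = (Finset.univ.sup fun i => ordepM m (f i)) + 1 := by
  simp only [ordepM]; rw [if_neg h]

theorem ordepM_lt {m k : ℕ} {f : Fin k → Fm} (h : ¬ (Fm.or k f).vars.card ≤ m) (i : Fin k) :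
    ordepM m (f i) < ordepM m (.or k f) := by
  rw [ordepM_or h]
  exact Nat.lt_succ_of_le (Finset.le_sup (f := fun i => ordepM m (f i)) (Finset.mem_univ i))

theorem ordepM_mod_le {m k : ℕ} {f : Fin k → Fm} (i : Fin k) :
    ordepM m (f i) ≤ ordepM m (.mod k f) := by
  by_cases h : (Fm.mod k f).vars.card ≤ m
  · rw [ordepM_small (small_mod h i)]; exact Nat.zero_le _
  · simp only [ordepM]
    rw [if_neg h]
    exact Finset.le_sup (f := fun i => ordepM m (f i)) (Finset.mem_univ i)

theorem ordepM_le_ordep (m : ℕ) (A : Fm) : ordepM m A ≤ ordep A := by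
  induction A with
  | var i => exact le_refl _
  | neg A ih => exact ih
  | or k f ih =>
    simp only [ordepM, ordep]
    split_ifs
    · exact Nat.zero_le _
    · exact Nat.succ_le_succ (Finset.sup_mono_fun fun i _ => ih i)
  | mod k f ih =>
    simp only [ordepM, ordep]
    split_ifs
    · exact Nat.zero_le _
    · exact Finset.sup_mono_fun fun i _ => ih i

theorem ordepM_le_depthOver (m : ℕ) (A : Fm) : ordepM m A ≤ A.depthOver m := by
  induction A with
  | var i => exact le_refl _
  | neg A ih =>
    by_cases h : (Fm.neg A).vars.card ≤ m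
    · rw [ordepM_small h]; exact Nat.zero_le _
    · simp only [ordepM, Fm.depthOver]
      rw [if_neg h]
      omega
  | or k f ih =>
    simp only [ordepM, Fm.depthOver]
    split_ifs
    · exact Nat.zero_le _
    · exact Nat.succ_le_succ (Finset.sup_mono_fun fun i _ => ih i)
  | mod k f ih =>
    simp only [ordepM, Fm.depthOver]
    split_ifs
    · exact Nat.zero_le _
    · exact (Finset.sup_mono_fun fun i _ => ih i).trans (Nat.le_succ _)

variable {V : Type} [Fintype V]

/-- `FoV A b M`: the condition `M` forces `A` to have value `b`. -/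
def FoV (m p q s : ℕ) (blk : ℕ → Option (Finset V)) : Fm → Bool → Finset (Finset V) → Prop
  | .var i, true, M => ∃ B, blk i = some B ∧ B ∈ M
  | .var i, false, M => ∀ B, blk i = some B → ∃ B' ∈ M, B' ≠ B ∧ ¬ Disjoint B' B
  | .neg A, b, M => FoV m p q s blk A (!b) M
  | .or _ f, true, M => ∃ i, FoV m p q s blk (f i) true M
  | .or k f, false, M => ((Fm.or k f).vars.card ≤ m ∧ ∀ i, FoV m p q s blk (f i) false M) ∨
      (¬ (Fm.or k f).vars.card ≤ m ∧ ∀ M', M ⊆ M' → IsPM q M' →
        q * M'.card + q * s * ordepM m (.or k f) ≤ Fintype.card V →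
        ∀ i, ¬ FoV m p q s blk (f i) true M')
  | .mod k f, b, M => ∃ S : Finset (Fin k), (∀ i ∈ S, FoV m p q s blk (f i) true M) ∧
      (∀ i, i ∉ S → FoV m p q s blk (f i) false M) ∧ b = decide (p ∣ S.card)

variable {m p q s : ℕ} {blk : ℕ → Option (Finset V)}

theorem FoV_mono (A : Fm) : ∀ (b : Bool) {M M' : Finset (Finset V)}, M ⊆ M' →
    FoV m p q s blk A b M → FoV m p q s blk A b M' := by
  induction A with
  | var i =>
    intro b M M' hM h
    cases b with
    | true =>
      obtain ⟨B, h1, h2⟩ := h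
      exact ⟨B, h1, hM h2⟩
    | false =>
      intro B hB
      obtain ⟨B', h1, h2⟩ := h B hB
      exact ⟨B', hM h1, h2⟩
  | neg A ih =>
    intro b M M' hM h
    simp only [FoV] at h ⊢
    exact ih _ hM h
  | or k f ih =>
    intro b M M' hM h
    cases b with
    | true =>
      obtain ⟨i, hi⟩ := h
      exact ⟨i, ih i true hM hi⟩
    | false =>
      rcases h with ⟨h1, h2⟩ | ⟨h1, h2⟩
      · exact Or.inl ⟨h1, fun i => ih i false hM (h2 i)⟩
      · exact Or.inr ⟨h1, fun M'' hM'' hPM hc i => h2 M'' (hM.trans hM'') hPM hc i⟩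
  | mod k f ih =>
    intro b M M' hM h
    obtain ⟨S, h1, h2, h3⟩ := h
    exact ⟨S, fun i hi => ih i true hM (h1 i hi), fun i hi => ih i false hM (h2 i hi), h3⟩

theorem FoV_cons (A : Fm) : ∀ {M : Finset (Finset V)}, IsPM q M →
    q * M.card + q * s * ordepM m A ≤ Fintype.card V → FoV m p q s blk A true M →
    FoV m p q s blk A false M → False := by
  induction A with
  | var i =>
    intro M hM _ h1 h2
    obtain ⟨B, hB, hBM⟩ := h1
    obtain ⟨B', hB', hne, hd⟩ := h2 B hB
    exact hd (hM.2 B' hB' B hBM hne)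
  | neg A ih =>
    intro M hM hc h1 h2
    simp only [FoV, Bool.not_true, Bool.not_false] at h1 h2
    exact ih hM (by simpa [ordepM] using hc) h2 h1
  | or k f ih =>
    intro M hM hc h1 h2
    obtain ⟨i, hi⟩ := h1
    rcases h2 with ⟨h3, h4⟩ | ⟨_, h4⟩
    · refine ih i hM ?_ hi (h4 i)
      rw [ordepM_small (small_or h3 i), mul_zero, add_zero]
      omega
    · exact h4 M (le_refl _) hM hc i hi
  | mod k f ih =>
    intro M hM hc h1 h2
    obtain ⟨S, a1, a2, a3⟩ := h1
    obtain ⟨S', b1, b2, b3⟩ := h2
    have hroom : ∀ i, q * M.card + q * s * ordepM m (f i) ≤ Fintype.card V := by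
      intro i
      exact le_trans (Nat.add_le_add_left (Nat.mul_le_mul_left _ (ordepM_mod_le i)) _) hc
    have hS : S = S' := by
      ext i
      constructor
      · intro hi
        by_contra hi'
        exact ih i hM (hroom i) (a1 i hi) (b2 i hi')
      · intro hi
        by_contra hi'
        exact ih i hM (hroom i) (b1 i hi) (a2 i hi')
    subst hS
    rw [← a3] at b3
    exact absurd b3 (by simp)

/-! ### Disjunctions -/

/-- The formula is decided. -/
def DcV (m p q s : ℕ) (blk : ℕ → Option (Finset V)) (A : Fm) (M : Finset (Finset V)) : Prop :=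
  FoV m p q s blk A true M ∨ FoV m p q s blk A false M

theorem DcV_mono {A : Fm} (M M' : Finset (Finset V)) (hM : M ⊆ M')
    (h : DcV m p q s blk A M) : DcV m p q s blk A M' := by
  rcases h with h | h
  · exact Or.inl (FoV_mono A _ hM h)
  · exact Or.inr (FoV_mono A _ hM h)

/-- The small conditions that make a disjunction true. -/
noncomputable def termsV (m p q s : ℕ) (blk : ℕ → Option (Finset V)) (ρ : Finset (Finset V))
    {k : ℕ} (f : Fin k → Fm) : List (Finset (Finset V)) :=
  (Finset.univ.filter (fun t : Finset (Finset V) => t.card ≤ s ∧ IsPM q (ρ ∪ t) ∧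
    ∃ i, FoV m p q s blk (f i) true (ρ ∪ t))).toList

theorem mem_termsV {ρ t : Finset (Finset V)} {k : ℕ} {f : Fin k → Fm} :
    t ∈ termsV m p q s blk ρ f ↔ t.card ≤ s ∧ IsPM q (ρ ∪ t) ∧
      ∃ i, FoV m p q s blk (f i) true (ρ ∪ t) := by
  simp [termsV]

theorem decV_or (hq : 1 ≤ q) {ρ : Finset (Finset V)} {k : ℕ} {f : Fin k → Fm}
    (hlarge : ¬ (Fm.or k f).vars.card ≤ m)
    (hf : ∀ i, Dec q (DcV m p q s blk (f i)) s ρ)
    {M : Finset (Finset V)} (hρM : ρ ⊆ M) (hM : IsPM q M)
    (hc : q * (M.card + s + 1) ≤ Fintype.card V)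
    (hnl : ¬ Long q (termsV m p q s blk ρ f) s M) : Dec q (DcV m p q s blk (.or k f)) s M := by
  refine dec_of_not_long hq (F := termsV m p q s blk ρ f) ?_ (ρ := ρ) ?_ ?_ s M hρM hM hc hnl
  · intro t ht B hB
    rw [mem_termsV] at ht
    exact ht.2.1.1 B (Finset.mem_union_right _ hB)
  · intro M' hρM' _ hnone
    right
    refine Or.inr ⟨hlarge, ?_⟩
    intro M'' hM'' hPM hc' i hi
    have hn := first_none hnone
    have hod : 1 ≤ ordepM m (.or k f) := by rw [ordepM_or hlarge]; omega
    have e1 : q * s ≤ q * s * ordepM m (.or k f) := Nat.le_mul_of_pos_right _ hod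
    obtain ⟨t, h1, h2, h3⟩ := (hf i).follow hq (hρM'.trans hM'') hPM (by omega)
    have hρt : ρ ∪ t ⊆ M'' ∪ t := Finset.union_subset_union_left (hρM'.trans hM'')
    rcases h3 with h3 | h3
    · refine hn t ?_ ?_
      · rw [mem_termsV]
        exact ⟨h1, h2.mono hρt, i, h3⟩
      · refine h2.mono ?_
        rw [Finset.union_comm]
        exact Finset.union_subset_union_left hM''
    · refine FoV_cons (f i) h2 ?_ (FoV_mono _ _ Finset.subset_union_left hi)
        (FoV_mono _ _ hρt h3)
      have hle := ordepM_lt hlarge i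
      have e2 : q * s * ordepM m (f i) + q * s ≤ q * s * ordepM m (.or k f) := by
        calc q * s * ordepM m (f i) + q * s = q * s * (ordepM m (f i) + 1) := by ring
          _ ≤ _ := Nat.mul_le_mul_left _ hle
      have e3 : q * (M'' ∪ t).card ≤ q * M''.card + q * s := by
        rw [← mul_add]
        exact Nat.mul_le_mul_left _ ((Finset.card_union_le _ _).trans (by omega))
      omega
  · intro M' t hρM' _ hfirst htM'
    have ht := (first_some hfirst).1
    rw [mem_termsV] at ht
    obtain ⟨_, _, i, hi⟩ := ht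
    exact Or.inl ⟨i, FoV_mono _ _ (Finset.union_subset hρM' htM') hi⟩

theorem decV_neg {A : Fm} {M : Finset (Finset V)} {s' : ℕ}
    (h : Dec q (DcV m p q s blk A) s' M) : Dec q (DcV m p q s blk (.neg A)) s' M := by
  induction h with
  | leaf h =>
    refine Dec.leaf ?_
    rcases h with h | h
    · exact Or.inr h
    · exact Or.inl h
  | node a ha _ ih => exact Dec.node a ha ih

/-- A variable whose block meets the support is decided. -/
theorem dcV_var {i : ℕ} {M : Finset (Finset V)}
    (h : ∀ B, blk i = some B → ¬ Disjoint (supp M) B) : DcV m p q s blk (.var i) M := by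
  rcases hb : blk i with _ | B
  · right
    intro B hB
    rw [hb] at hB
    exact absurd hB (by simp)
  · have h1 := h B hb
    rw [Finset.not_disjoint_iff] at h1
    obtain ⟨a, ha, haB⟩ := h1
    rw [mem_supp] at ha
    obtain ⟨B', hB', haB'⟩ := ha
    by_cases hBB' : B' = B
    · left
      exact ⟨B, hb, hBB' ▸ hB'⟩
    · right
      intro C hC
      rw [hb, Option.some_inj] at hC
      subst hC
      exact ⟨B', hB', hBB', fun hd => Finset.disjoint_left.1 hd haB' haB⟩

theorem decV_var (hs : 1 ≤ s) (hq : 1 ≤ q) (hblk : ∀ i B, blk i = some B → B.card = q) (i : ℕ)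
    (M : Finset (Finset V)) : Dec q (DcV m p q s blk (.var i)) s M := by
  by_cases h : ∀ B, blk i = some B → ¬ Disjoint (supp M) B
  · exact Dec.leaf (dcV_var h)
  · push Not at h
    obtain ⟨B, hB, hd⟩ := h
    have hBq := hblk i B hB
    obtain ⟨a, ha⟩ := Finset.card_pos.1 (by omega : 0 < B.card)
    have haM : a ∉ supp M := fun h => Finset.disjoint_left.1 hd h ha
    obtain ⟨s', rfl⟩ : ∃ s', s = s' + 1 := ⟨s - 1, by omega⟩
    refine Dec.node a haM (fun B' haB' _ _ => Dec.leaf (dcV_var ?_))
    intro C hC hdC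
    rw [hB, Option.some_inj] at hC
    subst hC
    exact Finset.disjoint_left.1 hdC (mem_supp.2 ⟨B', Finset.mem_insert_self _ _, haB'⟩) ha

/-- Querying the points of a set. -/
theorem dec_cover (hq : 1 ≤ q) {P : Finset (Finset V) → Prop} (C : Finset V) :
    ∀ {s : ℕ} {M : Finset (Finset V)}, C.card ≤ s → IsPM q M →
    (∀ M', M ⊆ M' → IsPM q M' → C ⊆ supp M' → P M') → Dec q P s M := by
  induction C using Finset.induction_on with
  | empty =>
    intro s M _ hM h
    exact Dec.leaf (h M (le_refl _) hM (by simp))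
  | insert a C ha ih =>
    intro s M hs hM h
    rw [Finset.card_insert_of_notMem ha] at hs
    by_cases haM : a ∈ supp M
    · refine ih (by omega) hM (fun M' h1 h2 h3 => h M' h1 h2 ?_)
      exact Finset.insert_subset (supp_mono h1 haM) h3
    · obtain ⟨s', rfl⟩ : ∃ s', s = s' + 1 := ⟨s - 1, by omega⟩
      refine Dec.node a haM (fun B haB hBq hBd => ?_)
      refine ih (by omega) (hM.insert hBq hBd) (fun M' h1 h2 h3 => ?_)
      refine h M' ((Finset.subset_insert _ _).trans h1) h2 (Finset.insert_subset ?_ h3)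
      exact mem_supp.2 ⟨B, h1 (Finset.mem_insert_self _ _), haB⟩

/-- All variables of the formula are decided. -/
def VD (blk : ℕ → Option (Finset V)) (A : Fm) (M : Finset (Finset V)) : Prop :=
  ∀ i ∈ A.vars, ∀ B, blk i = some B → ¬ Disjoint (supp M) B

theorem VD_mono {A : Fm} (M M' : Finset (Finset V)) (hM : M ⊆ M') (h : VD blk A M) :
    VD blk A M' := by
  intro i hi B hB hd
  exact h i hi B hB (hd.mono_left (supp_mono hM))

theorem dcV_mod {k : ℕ} {f : Fin k → Fm} {M : Finset (Finset V)}
    (h : ∀ i, DcV m p q s blk (f i) M) : DcV m p q s blk (.mod k f) M := by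
  set S : Finset (Fin k) := Finset.univ.filter (fun i => FoV m p q s blk (f i) true M) with hS
  have h1 : ∀ i ∈ S, FoV m p q s blk (f i) true M := by
    intro i hi
    rw [hS, Finset.mem_filter] at hi
    exact hi.2
  have h2 : ∀ i, i ∉ S → FoV m p q s blk (f i) false M := by
    intro i hi
    rcases h i with h3 | h3
    · exact absurd (by rw [hS, Finset.mem_filter]; exact ⟨Finset.mem_univ _, h3⟩) hi
    · exact h3
  by_cases hd : p ∣ S.card
  · left
    exact ⟨S, h1, h2, by simp [hd]⟩
  · right
    exact ⟨S, h1, h2, by simp [hd]⟩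

/-- A formula with few variables is decided when its variables are. -/
theorem dcV_of_VD (A : Fm) {M : Finset (Finset V)} : A.vars.card ≤ m → VD blk A M →
    DcV m p q s blk A M := by
  induction A with
  | var i =>
    intro _ h
    exact dcV_var (fun B hB => h i (by simp [Fm.vars]) B hB)
  | neg A ih =>
    intro hm h
    rcases ih hm h with h1 | h1
    · exact Or.inr h1
    · exact Or.inl h1
  | or k f ih =>
    intro hm h
    by_cases hex : ∃ i, FoV m p q s blk (f i) true M
    · exact Or.inl hex
    · right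
      refine Or.inl ⟨hm, fun i => ?_⟩
      rcases ih i (small_or hm i) (fun j hj B hB => h j (vars_sub_or i hj) B hB) with h1 | h1
      · exact absurd ⟨i, h1⟩ hex
      · exact h1
  | mod k f ih =>
    intro hm h
    exact dcV_mod (fun i => ih i (small_mod hm i)
      (fun j hj B hB => h j (vars_sub_mod i hj) B hB))

/-- The clauses are not forced to be false. -/
theorem not_foV_clause {N : ℕ} (hq : 1 ≤ q) {C : Clause} (hC : C ∈ countCNF q N)
    {M : Finset (Finset (Fin N))} (hM : IsPM q M) (hc : q * (M.card + 1) + q * s ≤ N) :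
    ¬ FoV m p q s (blkOf q N) (clauseFm C) false M := by
  intro h
  have hlit : ∀ i : Fin (C.map litFm).length, ∀ (b : Bool) (M' : Finset (Finset (Fin N))),
      FoV m p q s (blkOf q N) ((C.map litFm).get i) b M' ↔
        Fo q s (blkOf q N) ((C.map litFm).get i) b M' := by
    intro i b M'
    have hi := List.get_mem (C.map litFm) i
    rw [List.mem_map] at hi
    obtain ⟨⟨j, c⟩, _, hl⟩ := hi
    rw [← hl]
    cases c
    · change FoV m p q s (blkOf q N) (.neg (.var j)) b M' ↔ Fo q s (blkOf q N) (.neg (.var j)) b M'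
      cases b <;> exact Iff.rfl
    · change FoV m p q s (blkOf q N) (.var j) b M' ↔ Fo q s (blkOf q N) (.var j) b M'
      cases b <;> exact Iff.rfl
  have hordep : ∀ i : Fin (C.map litFm).length, ordepM m ((C.map litFm).get i) = 0 := by
    intro i
    have hi := List.get_mem (C.map litFm) i
    rw [List.mem_map] at hi
    obtain ⟨⟨j, c⟩, _, hl⟩ := hi
    rw [← hl]
    cases c <;> rfl
  refine not_fo_clause hq hC hM hc ?_
  intro M' hMM' hPM hroom i hi
  rw [← hlit] at hi
  rcases h with ⟨_, h2⟩ | ⟨_, h2⟩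
  · refine FoV_cons _ hPM ?_ hi (FoV_mono _ _ hMM' (h2 i))
    rw [hordep i, mul_zero, add_zero]
    omega
  · refine h2 M' hMM' hPM ?_ i hi
    refine le_trans (Nat.add_le_add_left (Nat.mul_le_mul_left _ ?_) _) hroom
    exact ordepM_le_ordep m (clauseFm C)

theorem foV_orL_true {L : List Fm} {M : Finset (Finset V)} :
    FoV m p q s blk (Fm.orL L) true M ↔ ∃ z ∈ L, FoV m p q s blk z true M := by
  have := exists_get_iff L (fun z => FoV m p q s blk z true M)
  simp only [Fm.orL, FoV]
  exact this

end Pool.Agent.Helper21.Sml
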