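import Pool.Agent.Helper21.Mix.TreeFn

/-!
The leaf of a decision tree reached at a point.
-/

namespace Pool.Agent.Helper21.Sml

open scoped BigOperators Classical
open Pool.Agent.Helper21.AC0p Pool.Agent.Helper21.Mix

set_option linter.unusedSectionVars false

variable {V : Type} [Fintype V] {X K : Type} [Field K] {𝔉 : Filt X K}
  {M : X → Finset (Finset V)} {q e : ℕ}

theorem leaf_aux (hq : 1 ≤ q) {ρ : Finset (Finset V)} (hρ : IsPM q ρ)
    (hM : ∀ x, IsPM q (M x)) (hMρ : ∀ x, Disjoint (supp (M x)) (supp ρ))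
    (hB : ∀ B, ind K (fun x => decide (B ∈ M x)) ∈ 𝔉.LD e)
    {w s0 : ℕ} (hw : e * (s0 + 1) ≤ w) {Ax : Set (X → K)}
    (hAx : ∀ a, a ∉ supp ρ → ind K (fun x => decide (a ∉ supp (M x))) ∈ Ax)
    {P : Finset (Finset V) → Prop} {s : ℕ} {R : Finset (Finset V)}
    (h : Dec q P s R) : ρ ⊆ R → IsPM q R → (R \ ρ).card + s ≤ s0 →
    ∃ lf : X → Option (Finset (Finset V)),
      (∀ φ : Finset (Finset V) → K, (fun x => (lf x).elim 0 φ) ∈ 𝔉.LD (e * s)) ∧
      Der 𝔉 Ax w (ind K (fun x => decide (R \ ρ ⊆ M x)) * ind K (fun x => (lf x).isNone)) ∧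
      ∀ x, R \ ρ ⊆ M x → ∀ R', lf x = some R' →
        R ⊆ R' ∧ R' \ ρ ⊆ M x ∧ (R' \ ρ).card ≤ (R \ ρ).card + s ∧ P R' := by
  induction h with
  | @leaf s R h =>
    intro hρR hR _
    refine ⟨fun _ => some R, fun φ => 𝔉.const_mem _ _, ?_, ?_⟩
    · have hst0 : ind K (fun _ : X => (some R : Option (Finset (Finset V))).isNone) = 0 := by
        funext x; simp [ind]
      rw [hst0, mul_zero]; exact Der.zero
    · intro x hx R' hR'
      rw [Option.some_inj] at hR'
      subst hR'
      exact ⟨le_refl _, hx, by omega, h⟩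
  | @node s R a ha hd ih =>
    intro hρR hR hs0
    set 𝓑 : Finset (Finset V) :=
      Finset.univ.filter (fun B => a ∈ B ∧ B.card = q ∧ Disjoint B (supp R)) with h𝓑
    have hmem : ∀ {B}, B ∈ 𝓑 ↔ a ∈ B ∧ B.card = q ∧ Disjoint B (supp R) := by
      intro B; simp [h𝓑]
    have haρ : a ∉ supp ρ := fun h => ha (supp_mono hρR h)
    have hins : ∀ B ∈ 𝓑, (insert B R) \ ρ = insert B (R \ ρ) ∧ B ∉ R \ ρ := by
      intro B hB
      rw [hmem] at hB
      have hBR : B ∉ R := IsPM.not_mem_of_disjoint hq hB.2.1 hB.2.2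
      refine ⟨?_, fun h => hBR (Finset.mem_sdiff.1 h).1⟩
      rw [Finset.insert_sdiff_of_notMem]
      exact fun h => hBR (hρR h)
    have hIH : ∀ B ∈ 𝓑, ∃ lf : X → Option (Finset (Finset V)),
        (∀ φ : Finset (Finset V) → K, (fun x => (lf x).elim 0 φ) ∈ 𝔉.LD (e * s)) ∧
        Der 𝔉 Ax w (ind K (fun x => decide ((insert B R) \ ρ ⊆ M x)) *
          ind K (fun x => (lf x).isNone)) ∧
        ∀ x, (insert B R) \ ρ ⊆ M x → ∀ R', lf x = some R' →
          insert B R ⊆ R' ∧ R' \ ρ ⊆ M x ∧ (R' \ ρ).card ≤ ((insert B R) \ ρ).card + s ∧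
          P R' := by
      intro B hB
      have hB' := hmem.1 hB
      refine ih B hB'.1 hB'.2.1 hB'.2.2 (hρR.trans (Finset.subset_insert _ _))
        (hR.insert hB'.2.1 hB'.2.2) ?_
      rw [(hins B hB).1, Finset.card_insert_of_notMem (hins B hB).2]
      omega
    choose! lfB hb1 hder hsem using hIH
    have hcase : ∀ x, R \ ρ ⊆ M x → ∀ B ∈ M x, a ∈ B → B ∈ 𝓑 := by
      intro x hx B hBM haB
      rw [hmem]
      refine ⟨haB, (hM x).1 B hBM, ?_⟩
      have e1 : R = ρ ∪ (R \ ρ) := (Finset.union_sdiff_of_subset hρR).symm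
      rw [e1, supp_union, Finset.disjoint_union_right]
      refine ⟨?_, ?_⟩
      · refine Disjoint.mono_left ?_ (hMρ x)
        intro c hc
        exact mem_supp.2 ⟨B, hBM, hc⟩
      · refine (hM x).disjoint_supp hx hBM ?_
        intro hBR
        exact ha (mem_supp.2 ⟨B, (Finset.mem_sdiff.1 hBR).1, haB⟩)
    refine ⟨fun x => if h : ∃ B ∈ 𝓑, B ∈ M x then lfB h.choose x else none, ?_, ?_, ?_⟩
    · intro φ
      have h1 : (fun x => (if h : ∃ B ∈ 𝓑, B ∈ M x then lfB h.choose x else none).elim 0 φ) =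
          ∑ B ∈ 𝓑, ind K (fun x => decide (B ∈ M x)) *
            (fun B => fun x => (lfB B x).elim 0 φ) B := by
        funext x
        rw [sum_blocks hM (a := a) (fun B hB => (hmem.1 hB).1)]
        by_cases hx : ∃ B ∈ 𝓑, B ∈ M x
        · simp only [dif_pos hx]
        · simp only [dif_neg hx]; simp
      rw [h1]
      refine Submodule.sum_mem _ (fun B hB' => ?_)
      have := 𝔉.mul_mem (hB B) (hb1 B hB' φ)
      refine 𝔉.mono ?_ this
      ring_nf; exact le_refl _
    · have hdeg : ind K (fun x => decide (R \ ρ ⊆ M x)) ∈ 𝔉.LD (e * (R \ ρ).card) :=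
        path_mem hB _
      have h1 : ind K (fun x => decide (R \ ρ ⊆ M x)) *
          ind K (fun x => (if h : ∃ B ∈ 𝓑, B ∈ M x then lfB h.choose x else none).isNone) =
          ind K (fun x => decide (a ∉ supp (M x))) * ind K (fun x => decide (R \ ρ ⊆ M x)) +
          ∑ B ∈ 𝓑, ind K (fun x => decide ((insert B R) \ ρ ⊆ M x)) *
            ind K (fun x => (lfB B x).isNone) := by
        funext x
        rw [Pi.add_apply, Pi.mul_apply, Pi.mul_apply]
        have h2 : (∑ B ∈ 𝓑, ind K (fun x => decide ((insert B R) \ ρ ⊆ M x)) *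
              ind K (fun x => (lfB B x).isNone)) x
            = ind K (fun x => decide (R \ ρ ⊆ M x)) x *
              (∑ B ∈ 𝓑, ind K (fun x => decide (B ∈ M x)) *
                (fun B => ind K (fun x => (lfB B x).isNone)) B) x := by
          rw [Finset.sum_apply, Finset.sum_apply, Finset.mul_sum]
          refine Finset.sum_congr rfl (fun B hB' => ?_)
          simp only [Pi.mul_apply]
          rw [← mul_assoc]
          congr 1
          rw [(hins B hB').1]
          simp only [ind]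
          by_cases h3 : R \ ρ ⊆ M x
          · by_cases h4 : B ∈ M x
            · have : insert B (R \ ρ) ⊆ M x := Finset.insert_subset h4 h3
              simp [h3, h4, this]
            · have : ¬ insert B (R \ ρ) ⊆ M x := fun h => h4 (h (Finset.mem_insert_self _ _))
              simp [h4, this]
          · have : ¬ insert B (R \ ρ) ⊆ M x :=
              fun h => h3 ((Finset.subset_insert _ _).trans h)
            simp [h3, this]
        rw [h2, sum_blocks hM (a := a) (fun B hB => (hmem.1 hB).1)]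
        by_cases hx : R \ ρ ⊆ M x
        · by_cases hx2 : ∃ B ∈ 𝓑, B ∈ M x
          · have hcov : a ∈ supp (M x) := by
              obtain ⟨B, hB1, hB2⟩ := hx2
              exact mem_supp.2 ⟨B, hB2, (hmem.1 hB1).1⟩
            simp only [ind, dif_pos hx2]
            simp [hx, hcov]
          · have hcov : a ∉ supp (M x) := by
              intro h
              rw [mem_supp] at h
              obtain ⟨B, hB1, hB2⟩ := h
              exact hx2 ⟨B, hcase x hx B hB1 hB2, hB1⟩
            simp only [ind, dif_neg hx2]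
            simp [hx, hcov]
        · simp [ind, hx]
      rw [h1]
      refine Der.add ?_ (Der.sum _ _ (fun B hB' => hder B hB'))
      refine Der.mul (Der.ax (hAx a haρ) (𝔉.mono ?_ (uncovered_mem hM hB a)))
        (uncovered_mem hM hB a) hdeg ?_
      · nlinarith
      · have : e + e * (R \ ρ).card = e * ((R \ ρ).card + 1) := by ring
        rw [this]
        refine le_trans (Nat.mul_le_mul_left _ ?_) hw
        omega
    · intro x hx R' hR'
      by_cases hx2 : ∃ B ∈ 𝓑, B ∈ M x
      · simp only [dif_pos hx2] at hR'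
        have hs := hx2.choose_spec
        set B := hx2.choose with hBdef
        have hsub : (insert B R) \ ρ ⊆ M x := by
          rw [(hins B hs.1).1]
          exact Finset.insert_subset hs.2 hx
        have hcard : ((insert B R) \ ρ).card = (R \ ρ).card + 1 := by
          rw [(hins B hs.1).1, Finset.card_insert_of_notMem (hins B hs.1).2]
        obtain ⟨h1, h2, h3, h4⟩ := hsem B hs.1 x hsub R' hR'
        exact ⟨(Finset.subset_insert _ _).trans h1, h2, by omega, h4⟩
      · simp only [dif_neg hx2] at hR'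
        exact absurd hR' (by simp)

/-- The leaf of a decision tree. -/
theorem tree_leaf (hq : 1 ≤ q) {ρ : Finset (Finset V)} (hρ : IsPM q ρ)
    (hM : ∀ x, IsPM q (M x)) (hMρ : ∀ x, Disjoint (supp (M x)) (supp ρ))
    (hB : ∀ B, ind K (fun x => decide (B ∈ M x)) ∈ 𝔉.LD e)
    {w s : ℕ} (hw : e * (s + 1) ≤ w) {Ax : Set (X → K)}
    (hAx : ∀ a, a ∉ supp ρ → ind K (fun x => decide (a ∉ supp (M x))) ∈ Ax)
    {P : Finset (Finset V) → Prop} (h : Dec q P s ρ) :
    ∃ lf : X → Option (Finset (Finset V)),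
      (∀ φ : Finset (Finset V) → K, (fun x => (lf x).elim 0 φ) ∈ 𝔉.LD (e * s)) ∧
      Der 𝔉 Ax w (ind K (fun x => (lf x).isNone)) ∧
      ∀ x R', lf x = some R' → ∃ t, t ⊆ M x ∧ t.card ≤ s ∧ R' = ρ ∪ t ∧ P R' := by
  obtain ⟨lf, h1, h2, h3⟩ := leaf_aux hq hρ hM hMρ hB hw hAx h (le_refl _) hρ (by simp)
  refine ⟨lf, h1, ?_, ?_⟩
  · have e1 : ind K (fun x => decide (ρ \ ρ ⊆ M x)) = 1 := by
      funext x; simp [ind]
    rwa [e1, one_mul] at h2
  · intro x R' hR'
    obtain ⟨h4, h5, h6, h7⟩ := h3 x (by simp) R' hR'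
    refine ⟨R' \ ρ, h5, by simpa using h6, ?_, h7⟩
    rw [Finset.union_sdiff_of_subset h4]

end Pool.Agent.Helper21.Sml
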