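import Pool.Agent.Helper21.Sml.Rule
import Pool.Agent.Helper21.Sml.Leaf
import Pool.Agent.Helper21.Mix.OvMain

/-!
The set of formulas to be handled by decision trees.
-/

namespace Pool.Agent.Helper21.Sml

open scoped BigOperators Classical
open Pool.Agent.Helper21.AC0p Pool.Agent.Helper21.Mix

set_option linter.unusedSectionVars false

/-- The members of `G` that are subformulas of a formula. -/
noncomputable def gsub (G : Finset Fm) (A : Fm) : Finset Fm := G.filter (fun g => Fm.IsSub g A)

theorem mem_gsub {G : Finset Fm} {A g : Fm} : g ∈ gsub G A ↔ g ∈ G ∧ Fm.IsSub g A := by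
  simp [gsub]

/-- Formulas to be handled by decision trees. -/
noncomputable def GamV (m : ℕ) (π : List Fm) (G : Finset Fm) : Finset Fm :=
  ({Fm.orL [], Fm.neg (Fm.orL [])} ∪
    ((finite_subs π).toFinset.filter (fun A => A.OverV m G)).biUnion
      (fun B => (gsub G B).powerset.image (fun H => sbV G H B))) ∪
    ((finite_subs π).toFinset.filter IsOr).biUnion
      (fun B => (gsub G B).powerset.image (fun H => ovPartV m G H (args B)))

theorem mem_GamV {m : ℕ} {π : List Fm} {G : Finset Fm} {A : Fm} : A ∈ GamV m π G ↔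
    A = Fm.orL [] ∨ A = Fm.neg (Fm.orL []) ∨
    (∃ B ∈ subs π, B.OverV m G ∧ ∃ H ⊆ gsub G B, sbV G H B = A) ∨
    ∃ L, Fm.orL L ∈ subs π ∧ ∃ H ⊆ gsub G (Fm.orL L), ovPartV m G H L = A := by
  unfold GamV
  rw [Finset.mem_union, Finset.mem_union, Finset.mem_biUnion, Finset.mem_biUnion]
  constructor
  · rintro ((h | ⟨B, hB, h⟩) | ⟨B, hB, h⟩)
    · rw [Finset.mem_insert, Finset.mem_singleton] at h
      rcases h with h | h
      · exact Or.inl h
      · exact Or.inr (Or.inl h)
    · rw [Finset.mem_image] at h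
      obtain ⟨H, hH, rfl⟩ := h
      rw [Finset.mem_filter, Set.Finite.mem_toFinset] at hB
      exact Or.inr (Or.inr (Or.inl ⟨B, hB.1, hB.2, H, Finset.mem_powerset.1 hH, rfl⟩))
    · rw [Finset.mem_image] at h
      obtain ⟨H, hH, rfl⟩ := h
      rw [Finset.mem_filter, Set.Finite.mem_toFinset] at hB
      obtain ⟨hB, k, f, rfl⟩ := hB
      refine Or.inr (Or.inr (Or.inr ⟨List.ofFn f, ?_, H, ?_, rfl⟩))
      · rw [orL_ofFn]; exact hB
      · rw [orL_ofFn]; exact Finset.mem_powerset.1 hH
  · rintro (h | h | ⟨B, h1, h2, H, hH, rfl⟩ | ⟨L, h1, H, hH, rfl⟩)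
    · exact Or.inl (Or.inl (by rw [h]; simp))
    · exact Or.inl (Or.inl (by rw [h]; simp))
    · refine Or.inl (Or.inr ⟨B, ?_, ?_⟩)
      · rw [Finset.mem_filter, Set.Finite.mem_toFinset]
        exact ⟨h1, h2⟩
      · exact Finset.mem_image.2 ⟨H, Finset.mem_powerset.2 hH, rfl⟩
    · refine Or.inr ⟨Fm.orL L, ?_, ?_⟩
      · rw [Finset.mem_filter, Set.Finite.mem_toFinset]
        exact ⟨h1, L.length, L.get, rfl⟩
      · exact Finset.mem_image.2 ⟨H, Finset.mem_powerset.2 hH, by rw [args_orL]⟩

theorem sbV_gsub (G H : Finset Fm) (B : Fm) : sbV G H B = sbV G (H ∩ gsub G B) B := by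
  refine sbV_congr B ?_
  intro g hg hs
  rw [Finset.mem_inter, mem_gsub]
  exact ⟨fun h => ⟨h, hg, hs⟩, fun h => h.1⟩

theorem sbV_mem_GamV {m : ℕ} {π : List Fm} {G : Finset Fm} {B : Fm} (hB : B ∈ subs π)
    (hO : B.OverV m G) (H : Finset Fm) : sbV G H B ∈ GamV m π G :=
  mem_GamV.2 (Or.inr (Or.inr (Or.inl ⟨B, hB, hO, H ∩ gsub G B, Finset.inter_subset_right,
    (sbV_gsub G H B).symm⟩)))

theorem ovPartV_mem_GamV {m : ℕ} {π : List Fm} {G : Finset Fm} {L : List Fm}
    (hL : Fm.orL L ∈ subs π) (H : Finset Fm) : ovPartV m G H L ∈ GamV m π G := by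
  refine mem_GamV.2 (Or.inr (Or.inr (Or.inr ⟨L, hL, H ∩ gsub G (Fm.orL L),
    Finset.inter_subset_right, ?_⟩)))
  refine ovPartV_congr L ?_
  intro z hz g hg hs
  rw [Finset.mem_inter, mem_gsub]
  refine ⟨fun h => h.1, fun h => ⟨h, hg, ?_⟩⟩
  obtain ⟨i, rfl⟩ := List.get_of_mem hz
  exact Fm.IsSub.or i hs

theorem cst_ne_mod {c : Prop} {k : ℕ} {f : Fin k → Fm} (h : cst c = Fm.mod k f) : False := by
  unfold cst at h
  by_cases hc : c
  · rw [if_pos hc] at h
    exact Fm.noConfusion h
  · rw [if_neg hc] at h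
    exact Fm.noConfusion h

theorem closed_GamV (m : ℕ) (π : List Fm) (G : Finset Fm) : ClosedV m (GamV m π G) := by
  refine ⟨?_, ?_, ?_⟩
  · intro k f hA
    rcases mem_GamV.1 hA with h | h | ⟨B, h1, h2, H, hH, h3⟩ | ⟨L, hL, H, hH, h⟩
    · exact Fm.noConfusion h
    · exact Fm.noConfusion h
    · cases B with
      | var i => exact Fm.noConfusion h3
      | neg B =>
        simp only [sbV] at h3
        by_cases hg : Fm.neg B ∈ G
        · rw [if_pos hg] at h3
          exact (cst_ne_mod h3).elim
        · rw [if_neg hg] at h3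
          exact Fm.noConfusion h3
      | or k' f' =>
        simp only [sbV] at h3
        by_cases hg : Fm.or k' f' ∈ G
        · rw [if_pos hg] at h3
          exact (cst_ne_mod h3).elim
        · rw [if_neg hg] at h3
          exact Fm.noConfusion h3
      | mod k' f' =>
        simp only [sbV] at h3
        by_cases hg : Fm.mod k' f' ∈ G
        · rw [if_pos hg] at h3
          exact (cst_ne_mod h3).elim
        · rw [if_neg hg] at h3
          rw [← h3]; exact h2.resolve_left hg
    · exact Fm.noConfusion h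
  · intro B hB
    rcases mem_GamV.1 hB with h | h | ⟨A, h1, h2, H, hH, h3⟩ | ⟨L, _, H, _, h⟩
    · exact Fm.noConfusion h
    · exact mem_GamV.2 (Or.inl (Fm.neg.inj h))
    · cases A with
      | var i => exact Fm.noConfusion h3
      | neg A =>
        simp only [sbV] at h3
        by_cases hg : Fm.neg A ∈ G
        · rw [if_pos hg] at h3
          exact mem_GamV.2 (Or.inl (cst_eq_neg h3))
        · rw [if_neg hg] at h3
          rw [← Fm.neg.inj h3]
          exact sbV_mem_GamV (subs_trans h1 (Fm.IsSub.neg Fm.IsSub.refl)) (h2.resolve_left hg) H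
      | or k f =>
        simp only [sbV] at h3
        by_cases hg : Fm.or k f ∈ G
        · rw [if_pos hg] at h3
          exact mem_GamV.2 (Or.inl (cst_eq_neg h3))
        · rw [if_neg hg] at h3
          exact Fm.noConfusion h3
      | mod k f =>
        simp only [sbV] at h3
        by_cases hg : Fm.mod k f ∈ G
        · rw [if_pos hg] at h3
          exact mem_GamV.2 (Or.inl (cst_eq_neg h3))
        · rw [if_neg hg] at h3
          exact Fm.noConfusion h3
    · exact Fm.noConfusion h
  · intro k f hf i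
    rcases mem_GamV.1 hf with h | h | ⟨A, h1, h2, H, hH, h3⟩ | ⟨L, hL, H, hH, h⟩
    · exact (or_eq_nil h i).elim
    · exact Fm.noConfusion h
    · cases A with
      | var i => exact Fm.noConfusion h3
      | neg A =>
        simp only [sbV] at h3
        by_cases hg : Fm.neg A ∈ G
        · rw [if_pos hg] at h3
          exact (or_eq_nil (cst_eq_or h3) i).elim
        · rw [if_neg hg] at h3
          exact Fm.noConfusion h3
      | or k' f' =>
        simp only [sbV] at h3
        by_cases hg : Fm.or k' f' ∈ G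
        · rw [if_pos hg] at h3
          exact (or_eq_nil (cst_eq_or h3) i).elim
        · rw [if_neg hg] at h3
          have h4 := congrArg args h3
          change List.ofFn (fun i => sbV G H (f' i)) = List.ofFn f at h4
          have h5 : f i ∈ List.ofFn f := List.mem_ofFn.2 ⟨i, rfl⟩
          rw [← h4, List.mem_ofFn] at h5
          obtain ⟨j, hj⟩ := h5
          rw [← hj]
          exact sbV_mem_GamV (subs_trans h1 (Fm.IsSub.or j Fm.IsSub.refl))
            (h2.resolve_left hg j) H
      | mod k' f' =>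
        simp only [sbV] at h3
        by_cases hg : Fm.mod k' f' ∈ G
        · rw [if_pos hg] at h3
          exact (or_eq_nil (cst_eq_or h3) i).elim
        · rw [if_neg hg] at h3
          exact Fm.noConfusion h3
    · have h4 := congrArg args h
      rw [ovPartV, args_orL] at h4
      have h5 : f i ∈ List.ofFn f := List.mem_ofFn.2 ⟨i, rfl⟩
      change _ = List.ofFn f at h4
      rw [← h4, List.mem_map] at h5
      obtain ⟨z, hz, hz2⟩ := h5
      rw [List.mem_filter] at hz
      rw [← hz2]
      exact sbV_mem_GamV (subs_trans hL (isSub_orL hz.1)) (by simpa using hz.2) H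

/-- The `MOD_p` formulas in the set occur in the refutation. -/
theorem mod_GamV {m : ℕ} {π : List Fm} {G : Finset Fm} {k : ℕ} {f : Fin k → Fm}
    (hA : Fm.mod k f ∈ GamV m π G) : Fm.mod k f ∈ subs π := by
  rcases mem_GamV.1 hA with h | h | ⟨B, h1, h2, H, hH, h3⟩ | ⟨L, hL, H, hH, h⟩
  · exact Fm.noConfusion h
  · exact Fm.noConfusion h
  · cases B with
    | var i => exact Fm.noConfusion h3
    | neg B =>
      simp only [sbV] at h3
      by_cases hg : Fm.neg B ∈ G
      · rw [if_pos hg] at h3
        exact (cst_ne_mod h3).elim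
      · rw [if_neg hg] at h3
        exact Fm.noConfusion h3
    | or k' f' =>
      simp only [sbV] at h3
      by_cases hg : Fm.or k' f' ∈ G
      · rw [if_pos hg] at h3
        exact (cst_ne_mod h3).elim
      · rw [if_neg hg] at h3
        exact Fm.noConfusion h3
    | mod k' f' =>
      simp only [sbV] at h3
      by_cases hg : Fm.mod k' f' ∈ G
      · rw [if_pos hg] at h3
        exact (cst_ne_mod h3).elim
      · rw [if_neg hg] at h3
        rw [← h3]; exact h1
  · exact Fm.noConfusion h

/-- The disjunction with the members of `G` replaced; other formulas are kept. -/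
noncomputable def omMap (m : ℕ) (G H : Finset Fm) : Fm → Fm
  | .or k f => ovPartV m G H (List.ofFn f)
  | A => A

/-- Number of disjunctions and `MOD_p` formulas. -/
theorem card_GamV {m g0 : ℕ} {π : List Fm} {G : Finset Fm} (hnil : Fm.orL [] ∈ subs π)
    (hg0 : ∀ A ∈ subs π, (gsub G A).card ≤ g0) :
    ((GamV m π G).filter IsOM).card ≤ 2 ^ g0 * numOrMod π := by
  set 𝒪 : Finset Fm := ((finite_subs π).toFinset.filter IsOM).biUnion
      (fun B => (gsub G B).powerset.image (fun H => omMap m G H B)) with h𝒪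
  have key : ∀ L, Fm.orL L ∈ subs π → ∀ H ⊆ gsub G (Fm.orL L), ovPartV m G H L ∈ 𝒪 := by
    intro L hL H hH
    rw [h𝒪, Finset.mem_biUnion]
    refine ⟨Fm.orL L, ?_, Finset.mem_image.2 ⟨H, Finset.mem_powerset.2 hH, ?_⟩⟩
    · rw [Finset.mem_filter, Set.Finite.mem_toFinset]
      exact ⟨hL, L.length, L.get, Or.inl rfl⟩
    · simp only [Fm.orL, omMap, List.ofFn_get]
  have key0 : Fm.orL [] ∈ 𝒪 := key [] hnil ∅ (by simp)
  have h1 : (GamV m π G).filter IsOM ⊆ 𝒪 := by
    intro B hB
    rw [Finset.mem_filter] at hB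
    obtain ⟨hB, k, f, rfl | rfl⟩ := hB
    · rcases mem_GamV.1 hB with h | h | ⟨A, h1, h2, H, hH, h3⟩ | ⟨L, hL, H, hH, h⟩
      · rw [h]; exact key0
      · exact Fm.noConfusion h
      · cases A with
        | var i => exact Fm.noConfusion h3
        | neg A =>
          simp only [sbV] at h3
          by_cases hg : Fm.neg A ∈ G
          · rw [if_pos hg] at h3
            rw [cst_eq_or h3]; exact key0
          · rw [if_neg hg] at h3
            exact Fm.noConfusion h3
        | or k' f' =>
          by_cases hg : Fm.or k' f' ∈ G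
          · simp only [sbV] at h3
            rw [if_pos hg] at h3
            rw [cst_eq_or h3]; exact key0
          · rw [← h3]
            rw [← orL_ofFn] at hg h1 h2 hH ⊢
            rw [← ovPartV_eq hg h2]
            exact key _ h1 H hH
        | mod k' f' =>
          simp only [sbV] at h3
          by_cases hg : Fm.mod k' f' ∈ G
          · rw [if_pos hg] at h3
            rw [cst_eq_or h3]; exact key0
          · rw [if_neg hg] at h3
            exact Fm.noConfusion h3
      · rw [← h]; exact key L hL H hH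
    · rw [h𝒪, Finset.mem_biUnion]
      refine ⟨Fm.mod k f, ?_, Finset.mem_image.2 ⟨∅, by simp, rfl⟩⟩
      rw [Finset.mem_filter, Set.Finite.mem_toFinset]
      exact ⟨mod_GamV hB, k, f, Or.inr rfl⟩
  refine (Finset.card_le_card h1).trans (Finset.card_biUnion_le.trans ?_)
  have h2 : ((finite_subs π).toFinset.filter IsOM).card = numOrMod π := by
    unfold numOrMod
    have h2 : {B : Fm | ∃ (k : ℕ) (f : Fin k → Fm), (B = Fm.or k f ∨ B = Fm.mod k f) ∧
        ∃ A ∈ π, Fm.IsSub B A} =
        (((finite_subs π).toFinset.filter IsOM : Finset Fm) : Set Fm) := by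
      ext B
      rw [Set.mem_ofPred_eq, Finset.mem_coe, Finset.mem_filter, Set.Finite.mem_toFinset]
      constructor
      · rintro ⟨k, f, h3, h4⟩; exact ⟨h4, k, f, h3⟩
      · rintro ⟨h4, k, f, h3⟩; exact ⟨k, f, h3, h4⟩
    rw [h2, Set.ncard_coe_finset]
  calc ∑ B ∈ (finite_subs π).toFinset.filter IsOM, ((gsub G B).powerset.image
        (fun H => omMap m G H B)).card
      ≤ ∑ _B ∈ (finite_subs π).toFinset.filter IsOM, 2 ^ g0 := by
        refine Finset.sum_le_sum (fun B hB => ?_)
        rw [Finset.mem_filter, Set.Finite.mem_toFinset] at hB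
        refine Finset.card_image_le.trans ?_
        rw [Finset.card_powerset]
        exact Nat.pow_le_pow_right (by norm_num) (hg0 B hB.1)
    _ = 2 ^ g0 * numOrMod π := by
        rw [Finset.sum_const, smul_eq_mul, h2, mul_comm]

theorem mem_vars_orL {L : List Fm} {a : ℕ} : a ∈ (Fm.orL L).vars ↔ ∃ z ∈ L, a ∈ z.vars := by
  simp only [Fm.orL, Fm.vars, Finset.mem_biUnion, Finset.mem_univ, true_and]
  exact exists_get_iff L (fun z => a ∈ z.vars)

theorem vars_cst (c : Prop) : (cst c).vars = ∅ := by
  have h : (Fm.orL []).vars = ∅ := by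
    ext a
    rw [mem_vars_orL]
    simp
  unfold cst
  by_cases hc : c
  · rw [if_pos hc]; exact h
  · rw [if_neg hc]; exact h

theorem vars_sbV {G H : Finset Fm} (A : Fm) : (sbV G H A).vars ⊆ A.vars := by
  induction A with
  | var i => exact le_refl _
  | neg A ih =>
    simp only [sbV]
    by_cases hg : Fm.neg A ∈ G
    · rw [if_pos hg, vars_cst]; exact Finset.empty_subset _
    · rw [if_neg hg]; exact ih
  | or k f ih =>
    simp only [sbV]
    by_cases hg : Fm.or k f ∈ G
    · rw [if_pos hg, vars_cst]; exact Finset.empty_subset _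
    · rw [if_neg hg]
      simp only [Fm.vars]
      exact Finset.biUnion_mono (fun i _ => ih i)
  | mod k f _ =>
    simp only [sbV]
    by_cases hg : Fm.mod k f ∈ G
    · rw [if_pos hg, vars_cst]; exact Finset.empty_subset _
    · rw [if_neg hg]

theorem ordepM_cst (m : ℕ) (c : Prop) : ordepM m (cst c) = 0 :=
  ordepM_small (by rw [vars_cst]; simp)

theorem ordepM_sbV {m : ℕ} {G H : Finset Fm} (A : Fm) :
    ordepM m (sbV G H A) ≤ ordepM m A := by
  induction A with
  | var i => exact le_refl _
  | neg A ih =>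
    simp only [sbV]
    by_cases hg : Fm.neg A ∈ G
    · rw [if_pos hg, ordepM_cst]; exact Nat.zero_le _
    · rw [if_neg hg]; exact ih
  | or k f ih =>
    by_cases hg : Fm.or k f ∈ G
    · simp only [sbV]
      rw [if_pos hg, ordepM_cst]; exact Nat.zero_le _
    · by_cases hs : (sbV G H (Fm.or k f)).vars.card ≤ m
      · rw [ordepM_small hs]; exact Nat.zero_le _
      · have hs' : ¬ (Fm.or k f).vars.card ≤ m :=
          fun h => hs ((Finset.card_le_card (vars_sbV _)).trans h)
        rw [ordepM_or hs']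
        have e : sbV G H (Fm.or k f) = .or k (fun i => sbV G H (f i)) := by
          simp only [sbV]; rw [if_neg hg]
        rw [e] at hs ⊢
        rw [ordepM_or hs]
        exact Nat.succ_le_succ (Finset.sup_mono_fun fun i _ => ih i)
  | mod k f _ =>
    simp only [sbV]
    by_cases hg : Fm.mod k f ∈ G
    · rw [if_pos hg, ordepM_cst]; exact Nat.zero_le _
    · rw [if_neg hg]

theorem depthOver_subs {m d : ℕ} {π : List Fm} (hd : ∀ A ∈ π, A.depthOver m ≤ d) {A : Fm}
    (hA : A ∈ subs π) : A.depthOver m ≤ d := by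
  obtain ⟨B, hB, hAB⟩ := hA
  exact (rk_sub hAB).trans (hd B hB)

theorem ordepM_GamV {m : ℕ} {π : List Fm} {G : Finset Fm} {d : ℕ}
    (hd : ∀ A ∈ π, A.depthOver m ≤ d) {A : Fm} (hA : A ∈ GamV m π G) : ordepM m A ≤ d + 1 := by
  rcases mem_GamV.1 hA with rfl | rfl | ⟨B, h1, _, H, _, rfl⟩ | ⟨L, hL, H, _, rfl⟩
  · rw [ordepM_small (by rw [show (Fm.orL []).vars = ∅ from by ext a; rw [mem_vars_orL]; simp]; simp)]
    omega
  · have : ordepM m (Fm.orL []) = 0 :=
      ordepM_small (by rw [show (Fm.orL []).vars = ∅ from by ext a; rw [mem_vars_orL]; simp]; simp)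
    change ordepM m (Fm.orL []) ≤ d + 1
    omega
  · exact ((ordepM_sbV B).trans ((ordepM_le_depthOver m B).trans (depthOver_subs hd h1))).trans
      (Nat.le_succ _)
  · have h1 := (ordepM_le_depthOver m _).trans (depthOver_subs hd hL)
    by_cases hs : (ovPartV m G H L).vars.card ≤ m
    · rw [ordepM_small hs]; omega
    · have hsub : (ovPartV m G H L).vars ⊆ (Fm.orL L).vars := by
        intro a ha
        rw [ovPartV, mem_vars_orL] at ha
        obtain ⟨z', hz', ha⟩ := ha
        rw [List.mem_map] at hz'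
        obtain ⟨z, hz, rfl⟩ := hz'
        rw [List.mem_filter] at hz
        exact mem_vars_orL.2 ⟨z, hz.1, vars_sbV z ha⟩
      have hs' : ¬ (Fm.orL L).vars.card ≤ m :=
        fun h => hs ((Finset.card_le_card hsub).trans h)
      unfold Fm.orL at h1 hs'
      rw [ordepM_or hs'] at h1
      unfold ovPartV Fm.orL at hs ⊢
      rw [ordepM_or hs]
      refine Nat.succ_le_succ (Finset.sup_le (fun i _ => ?_))
      have hi := List.get_mem ((L.filter (fun A => decide (A.OverV m G))).map (sbV G H)) i
      rw [List.mem_map] at hi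
      obtain ⟨z, hz, hz2⟩ := hi
      rw [← hz2]
      rw [List.mem_filter] at hz
      obtain ⟨j, hj⟩ := List.get_of_mem hz.1
      refine (ordepM_sbV z).trans ?_
      have := Finset.le_sup (f := fun i => ordepM m (L.get i)) (Finset.mem_univ j)
      rw [← hj]
      omega

theorem ovPartV_clause {m : ℕ} {G : Finset Fm} (hgl : ∀ i, Fm.neg (.var i) ∉ G)
    (H : Finset Fm) (C : Clause) : ovPartV m G H (C.map litFm) = clauseFm C := by
  unfold ovPartV clauseFm
  rw [List.filter_eq_self.2, List.map_map]
  · congr 1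
    apply List.map_congr_left
    rintro ⟨j, c⟩ _
    cases c
    · change sbV G H (Fm.neg (.var j)) = _
      rw [sbV_neg (hgl j)]
      rfl
    · rfl
  · intro z hz
    rw [List.mem_map] at hz
    obtain ⟨⟨j, c⟩, _, rfl⟩ := hz
    rw [decide_eq_true_eq]
    cases c
    · exact Or.inr trivial
    · exact trivial

end Pool.Agent.Helper21.Sml
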