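import Pool.Agent.Helper21.Loc.Shrink
import Pool.Agent.Helper21.Mix.Levels
import Pool.Agent.Helper21.Sml.Force

/-!
The first restriction decides all formulas with few variables; then level by level restriction.
-/

namespace Pool.Agent.Helper21.Sml

open scoped BigOperators Classical
open Pool.Agent.Helper21.AC0p Pool.Agent.Helper21.Mix

set_option linter.unusedSectionVars false

variable {V : Type} [Fintype V]

/-- The blocks of the variables of a formula. -/
noncomputable def blocksV (blk : ℕ → Option (Finset V)) (A : Fm) : Finset (Finset V) :=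
  Finset.univ.filter (fun B => ∃ i ∈ A.vars, blk i = some B)

theorem mem_blocksV {blk : ℕ → Option (Finset V)} {A : Fm} {B : Finset V} :
    B ∈ blocksV blk A ↔ ∃ i ∈ A.vars, blk i = some B := by
  simp [blocksV]

theorem card_blocksV {blk : ℕ → Option (Finset V)} (A : Fm) :
    (blocksV blk A).card ≤ A.vars.card := by
  have h : (blocksV blk A).image some ⊆ A.vars.image blk := by
    intro o ho
    rw [Finset.mem_image] at ho
    obtain ⟨B, hB, rfl⟩ := ho
    rw [mem_blocksV] at hB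
    obtain ⟨i, hi, hiB⟩ := hB
    exact Finset.mem_image.2 ⟨i, hi, hiB⟩
  have h1 : (blocksV blk A).card = ((blocksV blk A).image some).card := by
    rw [Finset.card_image_of_injective _ (Option.some_injective _)]
  rw [h1]
  exact (Finset.card_le_card h).trans Finset.card_image_le

/-- After a suitable restriction all formulas of a family with few variables are decided by
shallow trees. -/
theorem first_VD {q s : ℕ} {blk : ℕ → Option (Finset V)} (hq : 1 ≤ q)
    (hblk : ∀ i B, blk i = some B → B.card = q) (𝒢 : Finset Fm) {m j k : ℕ}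
    (h𝒢 : ∀ A ∈ 𝒢, A.vars.card ≤ m) (hjs : q * j ≤ s)
    (hk : q * k ≤ Fintype.card V)
    (hcount : 𝒢.card * m ^ j * (Fintype.card V - q * k) ^ (q * j) <
      Fintype.card V ^ (q * j)) :
    ∃ ρ : Finset (Finset V), IsPM q ρ ∧ ρ.card = k ∧ ∀ A ∈ 𝒢, Dec q (VD blk A) s ρ := by
  set 𝓘 : Finset (Fm × Finset (Finset V)) :=
    (𝒢 ×ˢ (Finset.univ : Finset (Finset (Finset V)))).filter
      (fun x => x.2 ⊆ blocksV blk x.1 ∧ x.2.card = j ∧ IsPM q x.2) with h𝓘
  have hmem : ∀ x, x ∈ 𝓘 ↔ x.1 ∈ 𝒢 ∧ x.2 ⊆ blocksV blk x.1 ∧ x.2.card = j ∧ IsPM q x.2 := by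
    intro x; simp [h𝓘]
  have hcard𝓘 : 𝓘.card ≤ 𝒢.card * m ^ j := by
    have h1 : 𝓘 ⊆ 𝒢.biUnion (fun A => ((blocksV blk A).powersetCard j).image
        (fun T => (A, T))) := by
      intro x hx
      rw [hmem] at hx
      rw [Finset.mem_biUnion]
      refine ⟨x.1, hx.1, ?_⟩
      rw [Finset.mem_image]
      exact ⟨x.2, Finset.mem_powersetCard.2 ⟨hx.2.1, hx.2.2.1⟩, rfl⟩
    refine (Finset.card_le_card h1).trans (Finset.card_biUnion_le.trans ?_)
    refine (Finset.sum_le_card_nsmul _ _ (m ^ j) (fun A hA => ?_)).trans (le_of_eq ?_)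
    · refine Finset.card_image_le.trans ?_
      rw [Finset.card_powersetCard]
      exact (Nat.choose_le_pow _ _).trans
        (Nat.pow_le_pow_left ((card_blocksV A).trans (h𝒢 A hA)) _)
    · rw [smul_eq_mul]
  obtain ⟨ρ, hρ, hρk, hρc⟩ := Loc.exists_shrink 𝓘 (fun x => supp x.2) (w := q * j) hq (by
    intro x hx
    rw [hmem] at hx
    rw [hx.2.2.2.card_supp, hx.2.2.1]) k hk
  have hzero : (𝓘.filter (fun x => Disjoint (supp x.2) (supp ρ))).card = 0 := by
    by_contra hne
    have h1 : 1 ≤ (𝓘.filter (fun x => Disjoint (supp x.2) (supp ρ))).card := by omega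
    have h2 : Fintype.card V ^ (q * j) ≤
        (𝓘.filter (fun x => Disjoint (supp x.2) (supp ρ))).card * Fintype.card V ^ (q * j) :=
      Nat.le_mul_of_pos_left _ h1
    have h3 : 𝓘.card * (Fintype.card V - q * k) ^ (q * j) ≤
        𝒢.card * m ^ j * (Fintype.card V - q * k) ^ (q * j) := Nat.mul_le_mul_right _ hcard𝓘
    omega
  rw [Finset.card_eq_zero] at hzero
  refine ⟨ρ, hρ, hρk, ?_⟩
  intro A hA
  -- a maximal family of disjoint live blocks
  set 𝒯 : Finset (Finset (Finset V)) := (blocksV blk A).powerset.filter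
    (fun T => IsPM q T ∧ Disjoint (supp T) (supp ρ)) with h𝒯
  have h𝒯mem : ∀ T, T ∈ 𝒯 ↔ T ⊆ blocksV blk A ∧ IsPM q T ∧
      Disjoint (supp T) (supp ρ) := by
    intro T; simp [h𝒯]
  have hne : 𝒯.Nonempty := ⟨∅, (h𝒯mem ∅).2 ⟨Finset.empty_subset _, IsPM.empty, by
    rw [supp_empty]; exact Finset.disjoint_empty_left _⟩⟩
  obtain ⟨T, hT, hTmax⟩ := Finset.exists_max_image 𝒯 Finset.card hne
  rw [h𝒯mem] at hT
  have hTj : T.card < j := by
    by_contra hcon
    obtain ⟨T', hT', hT'c⟩ := Finset.exists_subset_card_eq (show j ≤ T.card by omega)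
    have : ((A, T') : Fm × Finset (Finset V)) ∈
        𝓘.filter (fun x => Disjoint (supp x.2) (supp ρ)) := by
      rw [Finset.mem_filter, hmem]
      exact ⟨⟨hA, hT'.trans hT.1, hT'c, hT.2.1.mono hT'⟩,
        hT.2.2.mono_left (supp_mono hT')⟩
    rw [hzero] at this
    simp at this
  refine dec_cover hq (supp T) ?_ hρ ?_
  · rw [hT.2.1.card_supp]
    exact (Nat.mul_le_mul_left _ hTj.le).trans hjs
  · intro M' hρM' _ hTM' i hi B hB hdis
    have hBq := hblk _ B hB
    have hBT : Disjoint B (supp T) := (hdis.mono_left hTM').symm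
    have hBρ : Disjoint (supp ρ) B := hdis.mono_left (supp_mono hρM')
    have hnot := IsPM.not_mem_of_disjoint hq hBq hBT
    have h1 : insert B T ∈ 𝒯 := by
      rw [h𝒯mem]
      refine ⟨Finset.insert_subset (mem_blocksV.2 ⟨i, hi, hB⟩) hT.1, hT.2.1.insert hBq hBT, ?_⟩
      rw [supp_insert, Finset.disjoint_union_left]
      exact ⟨hBρ.symm, hT.2.2⟩
    have h2 := hTmax _ h1
    rw [Finset.card_insert_of_notMem hnot] at h2
    omega

/-- Disjunctions and `MOD_p` formulas. -/
def IsOM (A : Fm) : Prop := ∃ (k : ℕ) (f : Fin k → Fm), A = .or k f ∨ A = .mod k f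

/-- A set of formulas with small `MOD_p` formulas only, closed under negands and disjuncts. -/
structure ClosedV (m : ℕ) (Γ : Finset Fm) : Prop where
  mf : ∀ (k : ℕ) (f : Fin k → Fm), Fm.mod k f ∈ Γ → (Fm.mod k f).vars.card ≤ m
  neg : ∀ A, Fm.neg A ∈ Γ → A ∈ Γ
  or : ∀ (k : ℕ) (f : Fin k → Fm), Fm.or k f ∈ Γ → ∀ i, f i ∈ Γ

/-- The list of terms of a disjunction. -/
noncomputable def termsOfV (m p q s : ℕ) (blk : ℕ → Option (Finset V))
    (ρ : Finset (Finset V)) : Fm → List (Finset (Finset V))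
  | .or _ f => termsV m p q s blk ρ f
  | _ => []

theorem levelsV {m p q s : ℕ} {blk : ℕ → Option (Finset V)} (hq : 1 ≤ q) (hs : 1 ≤ s)
    (hblk : ∀ i B, blk i = some B → B.card = q) {Γ : Finset Fm} (hΓ : ClosedV m Γ)
    {d j0 : ℕ} (k a : ℕ → ℕ) {ρ₀ : Finset (Finset V)} (hρ₀ : IsPM q ρ₀) (hk0 : ρ₀.card = k 0)
    (hbase : ∀ A ∈ Γ, IsOM A → A.vars.card ≤ m → Dec q (DcV m p q s blk A) s ρ₀)
    (hkmono : ∀ i < d, k i ≤ k (i + 1))
    (hkV : ∀ i ≤ d, q * (k i + s + 1) ≤ Fintype.card V)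
    (ha : ∀ i < d, Fintype.card V - q * k (i + 1) ≤ a (i + 1)) (ha1 : ∀ i, 1 ≤ a i)
    (hbig : ∀ i < d, 4 * (a (i + 1) ^ q * (2 * (s * (a (i + 1) ^ q + 1) ^ q))) ≤
      k (i + 1) + 1 - k i)
    (hj0 : q * j0 ≤ s)
    (hG : (Γ.filter IsOM).card < 2 ^ j0) :
    ∀ i ≤ d, ∃ ρ : Finset (Finset V), IsPM q ρ ∧ ρ₀ ⊆ ρ ∧ ρ.card = k i ∧
      ∀ A ∈ Γ, ordepM m A ≤ i → Dec q (DcV m p q s blk A) s ρ := by
  intro i
  induction i with
  | zero =>
    intro _
    refine ⟨ρ₀, hρ₀, le_refl _, hk0, ?_⟩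
    intro A
    induction A with
    | var i => intro _ _; exact decV_var hs hq hblk i ρ₀
    | neg A ih =>
      intro hA ho
      exact decV_neg (ih (hΓ.neg A hA) (by simpa [ordepM] using ho))
    | or k f _ =>
      intro hA ho
      by_cases hsm : (Fm.or k f).vars.card ≤ m
      · exact hbase _ hA ⟨k, f, Or.inl rfl⟩ hsm
      · rw [ordepM_or hsm] at ho
        omega
    | mod k f _ => intro hA _; exact hbase _ hA ⟨k, f, Or.inr rfl⟩ (hΓ.mf k f hA)
  | succ i ih =>
    intro hi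
    obtain ⟨ρ, hρ, hρ0ρ, hρk, hdec⟩ := ih (by omega)
    obtain ⟨M, hM, hρM, hMk, hgood⟩ := exists_good hq
      (Γ.filter (fun A => ∃ (k : ℕ) (f : Fin k → Fm), A = .or k f))
      (termsOfV m p q s blk ρ) (r := s) (by
        intro A hA t ht
        rw [Finset.mem_filter] at hA
        obtain ⟨_, k', f, rfl⟩ := hA
        simp only [termsOfV, mem_termsV] at ht
        exact ⟨ht.1, fun B hB => ht.2.1.1 B (Finset.mem_union_right _ hB)⟩)
      hρ (k := k (i + 1)) (a := a (i + 1)) (by rw [hρk]; exact hkmono i (by omega)) (by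
        have := hkV (i + 1) hi
        exact (Nat.mul_le_mul_left _ (by omega)).trans this) (ha i (by omega)) (ha1 _)
      (by rw [hρk]; exact hbig i (by omega)) hs hj0 (by
        refine lt_of_le_of_lt (Finset.card_le_card ?_) hG
        intro A hA
        rw [Finset.mem_filter] at hA ⊢
        obtain ⟨hA, k', f, rfl⟩ := hA
        exact ⟨hA, k', f, Or.inl rfl⟩)
    refine ⟨M, hM, hρ0ρ.trans hρM, hMk, ?_⟩
    intro A
    induction A with
    | var j => intro _ _; exact decV_var hs hq hblk j M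
    | neg A ihA =>
      intro hA ho
      exact decV_neg (ihA (hΓ.neg A hA) (by simpa [ordepM] using ho))
    | or k' f _ =>
      intro hA ho
      by_cases hsm : (Fm.or k' f).vars.card ≤ m
      · exact (hbase _ hA ⟨k', f, Or.inl rfl⟩ hsm).restrict DcV_mono (hρ0ρ.trans hρM) hM
      · by_cases ho' : ordepM m (.or k' f) ≤ i
        · exact (hdec _ hA ho').restrict DcV_mono hρM hM
        · refine decV_or hq hsm (ρ := ρ) ?_ hρM hM ?_ ?_
          · intro j
            refine hdec (f j) (hΓ.or k' f hA j) ?_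
            have := ordepM_lt hsm j
            omega
          · rw [hMk]; exact hkV (i + 1) hi
          · exact hgood (.or k' f) (Finset.mem_filter.2 ⟨hA, k', f, rfl⟩)
    | mod k' f _ =>
      intro hA _
      exact (hbase _ hA ⟨k', f, Or.inr rfl⟩ (hΓ.mf k' f hA)).restrict DcV_mono
        (hρ0ρ.trans hρM) hM

end Pool.Agent.Helper21.Sml
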