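import Pool.Agent.Helper21.Sml.Gam
import Pool.Agent.Helper21.Mix.OvFinal

/-!
The core of the lower bound.
-/

namespace Pool.Agent.Helper21.Sml

open scoped BigOperators Classical
open Pool.Agent.Helper21.AC0p Pool.Agent.Helper21.Mix

set_option linter.unusedSectionVars false

theorem Dec.imp' {V : Type} [Fintype V] {q s : ℕ} {P Q : Finset (Finset V) → Prop}
    (hPQ : ∀ M, P M → Q M) {M : Finset (Finset V)} (h : Dec q P s M) : Dec q Q s M := by
  induction h with
  | leaf h => exact Dec.leaf (hPQ _ h)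
  | node a ha _ ih => exact Dec.node a ha ih

/-- The truth of a formula at a point. -/
def TV' {V X : Type} [Fintype V] (m p q s : ℕ) (blk : ℕ → Option (Finset V))
    (ρ : Finset (Finset V)) (M : X → Finset (Finset V)) (c : Bool) (A : Fm) (x : X) : Prop :=
  ∃ t, t ⊆ M x ∧ t.card ≤ s ∧ FoV m p q s blk A c (ρ ∪ t)

/-- The count used for `MOD_p` formulas: it is divisible by `p` iff the number of arguments with
value true is congruent to the number of arguments forced to be true at the leaf. -/
noncomputable def cntM {V X : Type} [Fintype V] (m p q s : ℕ) (blk : ℕ → Option (Finset V))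
    (b : Fm → X → Bool) (lf : Fm → X → Option (Finset (Finset V))) : Fm → X → ℕ
  | .mod k f => fun x => (lf (.mod k f) x).elim 0 (fun R' => (∑ i, (b (f i) x).toNat) +
      (p - 1) * (Finset.univ.filter (fun i => FoV m p q s blk (f i) true R')).card)
  | _ => fun _ => 0

theorem sml_core {p : ℕ} [hp : Fact p.Prime] {q c : ℕ} (hq : 1 ≤ q)
    (hard : ∀ m w : ℕ, m % q = 1 → c ≤ w → c * w ≤ m →
      ∀ (V : Type) (_ : Fintype V) (U : Finset V), U.card = m →
      ∃ (X K : Type) (_ : Field K) (_ : CharP K p) (𝔉 : Filt X K)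
        (M : X → Finset (Finset V)),
        (∀ x, IsPM q (M x) ∧ supp (M x) ⊆ U) ∧
        (∀ B, ind K (fun x => decide (B ∈ M x)) ∈ 𝔉.LD 5) ∧
        ¬ Der 𝔉 {g | ∃ a ∈ U, g = ind K (fun x => decide (a ∉ supp (M x)))} w 1)
    {V : Type} [Fintype V] {blk : ℕ → Option (Finset V)}
    (hblk : ∀ i B, blk i = some B → B.card = q)
    {N s j0 j1 m g0 w t d κ Dm : ℕ} (hcard : Fintype.card V = N)
    {Fs : List Clause} (hFs : ∀ C ∈ Fs, ∀ M : Finset (Finset V), IsPM q M →
      q * (M.card + 1) + q * s ≤ N → ¬ FoV m p q s blk (clauseFm C) false M)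
    (hN : N % q = 1) (hs : 1 ≤ s) (k a : ℕ → ℕ)
    (hkmono : ∀ i < d + 1, k i ≤ k (i + 1))
    (hkV : ∀ i ≤ d + 1, q * (k i + s + 1) ≤ N)
    (ha : ∀ i < d + 1, N - q * k (i + 1) ≤ a (i + 1)) (ha1 : ∀ i, 1 ≤ a i)
    (hbig : ∀ i < d + 1, 4 * (a (i + 1) ^ q * (2 * (s * (a (i + 1) ^ q + 1) ^ q))) ≤
      k (i + 1) + 1 - k i)
    (hj0 : q * j0 ≤ s) (hj1s : q * j1 ≤ s)
    (hroom : q * (k (d + 1) + 2 * s + 1) + q * s * (d + 2) ≤ N)
    (hcw : c ≤ w) (hcm : c * w ≤ N - q * k (d + 1)) (hw5 : 10 * p * (s + 1) ≤ w)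
    {G : Finset Fm} (hκp : p ≤ κ) (hκt : t + g0 + 1 ≤ κ)
    (hDm : g0 * (κ ^ d * (10 * p * (s + 1))) + κ ^ d * (10 * p * (s + 1)) ≤ Dm)
    {R : List Rule} (hR : ∀ r ∈ R, r.Sound p)
    (hw : ∀ r ∈ R, ruleCostV r * Dm ≤ w) (hw2 : 2 * Dm ≤ w)
    {π : List Fm} (hπ : Refutation R Fs π) (hd : ∀ A ∈ π, A.depthOver m ≤ d)
    (hgs : ∀ g ∈ G, g ∈ subs π) (hgv : ∀ i, Fm.var i ∉ G) (hgl : ∀ i, Fm.neg (.var i) ∉ G)
    (hgsm : ∀ g ∈ G, ¬ g.vars.card ≤ m)
    (hg0 : ∀ A ∈ π, (gsub G A).card ≤ g0)
    (hfew : ∀ (k : ℕ) (f : Fin k → Fm), Fm.or k f ∈ subs π →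
      ((Finset.univ.image f).filter (fun z => ¬ z.OverV m G)).card ≤ t)
    (hnum : 2 ^ g0 * numOrMod π < 2 ^ j0)
    (hnum1 : 2 ^ g0 * numOrMod π * m ^ j1 * (N - q * k 0) ^ (q * j1) < N ^ (q * j1)) :
    False := by
  have hp2 : 2 ≤ p := hp.out.two_le
  have hnil : Fm.orL [] ∈ subs π := ⟨_, hπ.2, Fm.IsSub.refl⟩
  have hg0' : ∀ A ∈ subs π, (gsub G A).card ≤ g0 := by
    rintro A ⟨B, hB, hAB⟩
    refine le_trans (Finset.card_le_card ?_) (hg0 B hB)
    intro g hg
    rw [mem_gsub] at hg ⊢
    exact ⟨hg.1, isSub_trans hg.2 hAB⟩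
  have hcardΓ := card_GamV (m := m) hnil hg0'
  obtain ⟨ρ₀, hρ₀, hρ₀k, hbase⟩ := first_VD (s := s) (blk := blk) hq hblk
    (((GamV m π G).filter IsOM).filter (fun A => A.vars.card ≤ m)) (m := m) (j := j1)
    (k := k 0) (fun A hA => (Finset.mem_filter.1 hA).2) hj1s
    (by
      rw [hcard]
      exact (Nat.mul_le_mul_left _ (by omega)).trans (hkV 0 (by omega)))
    (by
      rw [hcard]
      refine lt_of_le_of_lt ?_ hnum1
      exact Nat.mul_le_mul_right _ (Nat.mul_le_mul_right _
        ((Finset.card_filter_le _ _).trans hcardΓ)))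
  have hbase' : ∀ A ∈ GamV m π G, IsOM A → A.vars.card ≤ m → Dec q (VD blk A) s ρ₀ :=
    fun A hA h1 h2 => hbase A (Finset.mem_filter.2 ⟨Finset.mem_filter.2 ⟨hA, h1⟩, h2⟩)
  obtain ⟨ρ, hρ, hρ0, hρk, hdec⟩ := levelsV (m := m) (p := p) (blk := blk) hq hs hblk
    (closed_GamV m π G) (d := d + 1) (j0 := j0) k a hρ₀ hρ₀k
    (fun A hA h1 h2 => Dec.imp' (fun M hM => dcV_of_VD A h2 hM) (hbase' A hA h1 h2))
    hkmono (by rw [hcard]; exact hkV)
    (by rw [hcard]; exact ha) ha1 hbig hj0 (hcardΓ.trans_lt hnum) (d + 1) le_rfl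
  set U : Finset V := Finset.univ \ supp ρ with hU
  have hUcard : U.card = N - q * k (d + 1) := by
    rw [hU, Finset.card_sdiff_of_subset (Finset.subset_univ _), Finset.card_univ, hcard,
      hρ.card_supp, hρk]
  have hkd : q * k (d + 1) ≤ N := by
    have := hkV (d + 1) le_rfl
    calc q * k (d + 1) ≤ q * (k (d + 1) + s + 1) := Nat.mul_le_mul_left _ (by omega)
      _ ≤ N := this
  have hmod : (N - q * k (d + 1)) % q = 1 := by
    rw [Nat.sub_mul_mod hkd]; exact hN
  obtain ⟨X, K, _, _, 𝔉, M, hM, hMB, hnot⟩ := hard _ w hmod hcw hcm V inferInstance U hUcard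
  apply hnot
  set Ax : Set (X → K) := {g | ∃ a ∈ U, g = ind K (fun x => decide (a ∉ supp (M x)))} with hAx
  have hdisj : ∀ x, Disjoint (supp (M x)) (supp ρ) := by
    intro x
    refine Finset.disjoint_left.2 (fun a h1 h2 => ?_)
    have := (hM x).2 h1
    rw [hU, Finset.mem_sdiff] at this
    exact this.2 h2
  have hPMu : ∀ x, IsPM q (ρ ∪ M x) := fun x => hρ.union (hM x).1 (hdisj x).symm
  have hroom' : ∀ (x : X) (t t' : Finset (Finset V)), t.card ≤ s → t'.card ≤ s →
      q * (ρ ∪ (t ∪ t')).card ≤ q * (k (d + 1) + 2 * s) := by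
    intro x t t' h1 h2
    refine Nat.mul_le_mul_left _ ((Finset.card_union_le _ _).trans ?_)
    have := Finset.card_union_le t t'
    omega
  have e1 : q * (k (d + 1) + 2 * s + 1) = q * (k (d + 1) + 2 * s) + q := by ring
  -- consistency
  have hcons : ∀ A ∈ GamV m π G, ∀ x, TV' m p q s blk ρ M true A x →
      TV' m p q s blk ρ M false A x → False := by
    rintro A hA' x ⟨t, ht1, ht2, ht3⟩ ⟨t', ht1', ht2', ht3'⟩
    have h5 : ρ ∪ (t ∪ t') ⊆ ρ ∪ M x :=
      Finset.union_subset_union_right (Finset.union_subset ht1 ht1')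
    refine FoV_cons A ((hPMu x).mono h5) ?_
      (FoV_mono A _ (Finset.union_subset_union_right Finset.subset_union_left) ht3)
      (FoV_mono A _ (Finset.union_subset_union_right Finset.subset_union_right) ht3')
    have h6 := hroom' x t t' ht2 ht2'
    have h7 := ordepM_GamV hd hA'
    have h8 : q * s * ordepM m A ≤ q * s * (d + 2) := Nat.mul_le_mul_left _ (by omega)
    rw [hcard]
    omega
  -- decision tree functions
  set PA : Fm → Finset (Finset V) → Prop := fun A M => DcV m p q s blk A M ∧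
    ((∃ (k : ℕ) (f : Fin k → Fm), A = .mod k f) → VD blk A M) with hPA
  have hdecPA : ∀ A ∈ GamV m π G, Dec q (PA A) s ρ := by
    intro A hA
    by_cases hm : ∃ (k : ℕ) (f : Fin k → Fm), A = .mod k f
    · obtain ⟨k', f, rfl⟩ := hm
      have hsm := (closed_GamV m π G).mf k' f hA
      have h1 := (hbase' _ hA ⟨k', f, Or.inr rfl⟩ hsm).restrict VD_mono hρ0 hρ
      exact Dec.imp' (fun M hM => ⟨dcV_of_VD _ hsm hM, fun _ => hM⟩) h1
    · exact Dec.imp' (fun M hM => ⟨hM, fun h => absurd h hm⟩) (hdec A hA (ordepM_GamV hd hA))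
  have hw51 : 5 * (s + 1) ≤ w := by
    refine le_trans ?_ hw5
    refine Nat.mul_le_mul_right _ ?_
    omega
  have htree : ∀ A ∈ GamV m π G, ∃ lf : X → Option (Finset (Finset V)),
      (∀ φ : Finset (Finset V) → K, (fun x => (lf x).elim 0 φ) ∈ 𝔉.LD (5 * s)) ∧
      Der 𝔉 Ax w (ind K (fun x => (lf x).isNone)) ∧
      ∀ x R', lf x = some R' → ∃ t, t ⊆ M x ∧ t.card ≤ s ∧ R' = ρ ∪ t ∧ PA A R' := by
    intro A hA
    refine tree_leaf hq hρ (fun x => (hM x).1) hdisj hMB hw51 ?_ (hdecPA A hA)
    intro a ha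
    exact ⟨a, by rw [hU, Finset.mem_sdiff]; exact ⟨Finset.mem_univ _, ha⟩, rfl⟩
  choose! lf hlf hnone hsem using htree
  set b : Fm → X → Bool := fun A x =>
    (lf A x).elim false (fun R' => decide (FoV m p q s blk A true R')) with hb
  set g : Fm → X → ℕ := cntM m p q s blk b lf with hg
  set st : Fm → X → Bool := fun A x => (lf A x).isNone || !(decide (p ∣ g A x)) with hst
  have hbval : ∀ A x R', lf A x = some R' → b A x = decide (FoV m p q s blk A true R') := by
    intro A x R' h
    simp only [hb, h, Option.elim]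
  have hbT : ∀ A ∈ GamV m π G, ∀ x, b A x = true → TV' m p q s blk ρ M true A x := by
    intro A hA x hx
    rcases hlfx : lf A x with _ | R'
    · simp only [hb, hlfx, Option.elim] at hx
      exact absurd hx (by simp)
    · rw [hbval A x R' hlfx, decide_eq_true_eq] at hx
      obtain ⟨t, h1, h2, h3, _⟩ := hsem A hA x R' hlfx
      rw [h3] at hx
      exact ⟨t, h1, h2, hx⟩
  have hbF : ∀ A ∈ GamV m π G, ∀ x, (lf A x).isNone = false → b A x = false →
      TV' m p q s blk ρ M false A x := by
    intro A hA x h0 hx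
    rcases hlfx : lf A x with _ | R'
    · rw [hlfx] at h0; simp at h0
    · rw [hbval A x R' hlfx, decide_eq_false_iff_not] at hx
      obtain ⟨t, h1, h2, h3, h4, _⟩ := hsem A hA x R' hlfx
      rcases h4 with h4 | h4
      · exact absurd h4 hx
      · rw [h3] at h4
        exact ⟨t, h1, h2, h4⟩
  have hbdeg0 : ∀ A ∈ GamV m π G, ind K (b A) ∈ 𝔉.LD (5 * s) := by
    intro A hA
    have e : ind K (b A) = fun x => (lf A x).elim 0
        (fun R' => if FoV m p q s blk A true R' then (1 : K) else 0) := by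
      funext x
      rcases hlfx : lf A x with _ | R'
      · simp [ind, hb, hlfx]
      · simp [ind, hb, hlfx]
    rw [e]
    exact hlf A hA _
  have hnoneDeg : ∀ A ∈ GamV m π G, ind K (fun x => (lf A x).isNone) ∈ 𝔉.LD (5 * s) := by
    intro A hA
    have e : ind K (fun x => (lf A x).isNone) =
        1 - fun x => (lf A x).elim 0 (fun _ => (1 : K)) := by
      funext x
      rcases hlfx : lf A x with _ | R' <;> simp [ind, hlfx]
    rw [e]
    exact Submodule.sub_mem _ (𝔉.one_mem' _) (hlf A hA _)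
  have hD0 : 10 * (s + 1) * (p - 1) ≤ 10 * p * (s + 1) := by
    calc 10 * (s + 1) * (p - 1) ≤ 10 * (s + 1) * p := Nat.mul_le_mul_left _ (by omega)
      _ = 10 * p * (s + 1) := by ring
  have hD5 : 5 * s ≤ 10 * p * (s + 1) := by
    calc 5 * s ≤ 10 * (s + 1) := by omega
      _ = 10 * 1 * (s + 1) := by ring
      _ ≤ 10 * p * (s + 1) := Nat.mul_le_mul_right _ (Nat.mul_le_mul_left _ (by omega))
  -- the error of a `MOD_p` formula
  have hgood : ∀ A ∈ GamV m π G, (fun x => ((g A x : ℕ) : K)) ^ (p - 1) ∈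
      𝔉.LD (10 * (s + 1) * (p - 1)) ∧ Der 𝔉 Ax w ((fun x => ((g A x : ℕ) : K)) ^ (p - 1)) := by
    intro A hA
    by_cases hm : ∃ (k : ℕ) (f : Fin k → Fm), A = .mod k f
    swap
    · have e : (fun x => ((g A x : ℕ) : K)) = 0 := by
        funext x
        cases A with
        | var i => simp [hg, cntM]
        | neg A => simp [hg, cntM]
        | or k f => simp [hg, cntM]
        | mod k f => exact absurd ⟨k, f, rfl⟩ hm
      rw [e, zero_pow (by omega)]
      exact ⟨Submodule.zero_mem _, Der.zero⟩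
    obtain ⟨k', f, rfl⟩ := hm
    have hsm := (closed_GamV m π G).mf k' f hA
    have hAsub : Fm.mod k' f ∈ subs π := mod_GamV hA
    have hfsub : ∀ i, f i ∈ subs π := fun i =>
      subs_trans hAsub (Fm.IsSub.mod i Fm.IsSub.refl)
    have hfΓ : ∀ i, f i ∈ GamV m π G := by
      intro i
      have := sbV_mem_GamV (m := m) (G := G) (hfsub i) (small_over (small_mod hsm i)) ∅
      rwa [sbV_small hgsm (small_mod hsm i)] at this
    set Δ : Fin k' → X → K := fun i x => (lf (.mod k' f) x).elim 0
      (fun R' => ind K (b (f i)) x - (if FoV m p q s blk (f i) true R' then (1 : K) else 0))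
      with hΔ
    have hΔdeg : ∀ i, Δ i ∈ 𝔉.LD (10 * s) := by
      intro i
      have e : Δ i = ind K (b (f i)) * (fun x => (lf (.mod k' f) x).elim 0 (fun _ => (1 : K))) -
          (fun x => (lf (.mod k' f) x).elim 0
            (fun R' => if FoV m p q s blk (f i) true R' then (1 : K) else 0)) := by
        funext x
        simp only [hΔ, Pi.sub_apply, Pi.mul_apply]
        rcases lf (.mod k' f) x with _ | R' <;> simp
      rw [e]
      refine Submodule.sub_mem _ ?_ (𝔉.mono (by omega) (hlf _ hA _))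
      exact 𝔉.mono (by omega) (𝔉.mul_mem (hbdeg0 _ (hfΓ i)) (hlf _ hA _))
    have hΔder : ∀ i, Der 𝔉 Ax w (Δ i) := by
      intro i
      have e : Δ i = ind K (fun x => (lf (f i) x).isNone) * Δ i := by
        funext x
        rw [Pi.mul_apply]
        rcases hlfx : lf (f i) x with _ | R₁
        · simp [ind, hlfx]
        · have h0 : ind K (fun x => (lf (f i) x).isNone) x = 0 := by simp [ind, hlfx]
          rw [h0, zero_mul]
          simp only [hΔ]
          rcases hlfA : lf (.mod k' f) x with _ | R'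
          · simp
          · simp only [Option.elim]
            obtain ⟨t₁, h11, h12, h13, h14, _⟩ := hsem _ (hfΓ i) x R₁ hlfx
            obtain ⟨t₂, h21, h22, h23, _, h25⟩ := hsem _ hA x R' hlfA
            have hVD : VD blk (f i) R' := fun j hj B hB =>
              h25 ⟨k', f, rfl⟩ j (vars_sub_mod i hj) B hB
            have hdc : DcV m p q s blk (f i) R' := dcV_of_VD (f i) (small_mod hsm i) hVD
            have hiff : FoV m p q s blk (f i) true R₁ ↔ FoV m p q s blk (f i) true R' := by
              rw [h13, h23] at *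
              constructor
              · intro h
                rcases hdc with h' | h'
                · exact h'
                · exact (hcons _ (hfΓ i) x ⟨t₁, h11, h12, h⟩ ⟨t₂, h21, h22, h'⟩).elim
              · intro h
                rcases h14 with h' | h'
                · exact h'
                · exact (hcons _ (hfΓ i) x ⟨t₂, h21, h22, h⟩ ⟨t₁, h11, h12, h'⟩).elim
            have hbv : ind K (b (f i)) x = if FoV m p q s blk (f i) true R' then (1 : K) else 0 := by
              simp only [ind]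
              rw [hbval _ x R₁ hlfx]
              simp only [decide_eq_true_eq, hiff]
            rw [hbv, sub_self]
      rw [e]
      refine Der.mul (hnone _ (hfΓ i)) (hnoneDeg _ (hfΓ i)) (hΔdeg i) ?_
      refine le_trans ?_ hw5
      have : 10 * 2 * (s + 1) ≤ 10 * p * (s + 1) :=
        Nat.mul_le_mul_right _ (Nat.mul_le_mul_left _ hp2)
      omega
    have hgΔ : (fun x => ((g (.mod k' f) x : ℕ) : K)) = ∑ i, Δ i := by
      funext x
      rw [Finset.sum_apply]
      simp only [hg, cntM, hΔ]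
      rcases hlfA : lf (.mod k' f) x with _ | R'
      · simp
      · simp only [Option.elim]
        rw [Finset.sum_sub_distrib]
        have hp0 : ((p - 1 : ℕ) : K) = -1 := by
          rw [Nat.cast_sub (by omega), CharP.cast_eq_zero]
          simp
        rw [Nat.cast_add, Nat.cast_mul, hp0, Nat.cast_sum]
        have h1 : ∀ i, (((b (f i) x).toNat : ℕ) : K) = ind K (b (f i)) x := by
          intro i
          by_cases hbi : b (f i) x = true <;> simp [ind, hbi]
        have h2 : ∑ i, (if FoV m p q s blk (f i) true R' then (1 : K) else 0) =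
            ((Finset.univ.filter (fun i => FoV m p q s blk (f i) true R')).card : K) := by
          rw [Finset.sum_boole]
        rw [h2]
        simp only [h1]
        ring
    rw [hgΔ]
    have hsumDeg : (∑ i, Δ i) ∈ 𝔉.LD (10 * s) := Submodule.sum_mem _ (fun i _ => hΔdeg i)
    have hsumDer : Der 𝔉 Ax w (∑ i, Δ i) := Der.sum _ _ (fun i _ => hΔder i)
    constructor
    · refine 𝔉.mono ?_ (𝔉.pow_mem hsumDeg (p - 1))
      calc (p - 1) * (10 * s) ≤ (p - 1) * (10 * (s + 1)) := Nat.mul_le_mul_left _ (by omega)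
        _ = 10 * (s + 1) * (p - 1) := by ring
    · obtain ⟨r, hr⟩ : ∃ r, p - 1 = r + 1 := ⟨p - 2, by omega⟩
      rw [hr, pow_succ, mul_comm]
      refine Der.mul hsumDer hsumDeg (𝔉.pow_mem hsumDeg r) ?_
      refine le_trans ?_ hw5
      calc 10 * s + r * (10 * s) = (r + 1) * (10 * s) := by ring
        _ = (p - 1) * (10 * s) := by rw [hr]
        _ ≤ p * (10 * (s + 1)) := Nat.mul_le_mul (by omega) (by omega)
        _ = 10 * p * (s + 1) := by ring
  have hstind : ∀ A ∈ GamV m π G, ind K (st A) = ind K (fun x => (lf A x).isNone) +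
      (fun x => ((g A x : ℕ) : K)) ^ (p - 1) := by
    intro A hA
    have h1 : (fun x => ((g A x : ℕ) : K)) ^ (p - 1) =
        ind K (fun x => !(decide (p ∣ g A x))) := by
      rw [ind_not, ind_dvd]
      ring
    rw [h1]
    funext x
    rw [Pi.add_apply]
    rcases hlfx : lf A x with _ | R'
    · have hg0 : g A x = 0 := by
        cases A with
        | var i => simp [hg, cntM]
        | neg A => simp [hg, cntM]
        | or k f => simp [hg, cntM]
        | mod k f => simp [hg, cntM, hlfx]
      simp [ind, hst, hlfx, hg0]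
    · simp [ind, hst, hlfx]
  have H : SmlHyp 𝔉 Ax m p w (10 * p * (s + 1)) t g0 G (subs π) (GamV m π G : Set Fm) b st
      (TV' m p q s blk ρ M true) (TV' m p q s blk ρ M false) := by
    refine ⟨?_, hgs, hgv, hgsm, hg0', ?_, ?_, ?_, hfew, ?_, ?_, ?_, ?_, ?_, ?_, ?_, ?_, ?_, ?_,
      ?_⟩
    · intro A hA B hB; exact subs_trans hA hB
    · intro A hA hO H' hH'
      exact sbV_mem_GamV hA hO H'
    · intro L hL H' hH'
      exact ovPartV_mem_GamV hL H'
    · exact mem_GamV.2 (Or.inl rfl)
    · intro A hA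
      exact 𝔉.mono hD5 (hbdeg0 A hA)
    · intro A hA
      rw [hstind A hA]
      exact Submodule.add_mem _ (𝔉.mono hD5 (hnoneDeg A hA)) (𝔉.mono hD0 (hgood A hA).1)
    · intro A hA
      rw [hstind A hA]
      exact Der.add (hnone A hA) (hgood A hA).2
    · intro A hA x hx
      exact hbT A hA x hx
    · intro A hA x h1 h2
      refine hbF A hA x ?_ h2
      simp only [hst, Bool.or_eq_false_iff] at h1
      exact h1.1
    · intro A hA x h1 h2; exact hcons A hA x h1 h2
    · intro A x; exact Iff.rfl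
    · intro A x; exact Iff.rfl
    · intro L x
      constructor
      · rintro ⟨t, ht1, ht2, ht3⟩
        rw [foV_orL_true] at ht3
        obtain ⟨z, hz, hz2⟩ := ht3
        exact ⟨z, hz, t, ht1, ht2, hz2⟩
      · rintro ⟨z, hz, t, ht1, ht2, hz2⟩
        exact ⟨t, ht1, ht2, foV_orL_true.2 ⟨z, hz, hz2⟩⟩
    · intro x
      refine ⟨∅, by simp, by simp, Or.inl ⟨?_, fun i => i.elim0⟩⟩
      have : (Fm.orL []).vars = ∅ := by ext a; rw [mem_vars_orL]; simp
      change (Fm.orL []).vars.card ≤ m
      rw [this]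
      simp
    · intro L hL hsm x hx
      have hA : Fm.modL L ∈ GamV m π G := by
        have := sbV_mem_GamV (m := m) (G := G) hL (small_over hsm) ∅
        rwa [sbV_small hgsm hsm] at this
      simp only [hst, Bool.or_eq_false_iff, Bool.not_eq_false', decide_eq_true_eq] at hx
      obtain ⟨hx1, hx2⟩ := hx
      rcases hlfx : lf (Fm.modL L) x with _ | R'
      · rw [hlfx] at hx1; simp at hx1
      · obtain ⟨t, h1, h2, h3, h4, _⟩ := hsem _ hA x R' hlfx
        have hsum : (L.map (fun z => (b z x).toNat)).sum = ∑ i, (b (L.get i) x).toNat :=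
          (sum_get L (fun z => (b z x).toNat)).symm
        set S₀ : Finset (Fin L.length) :=
          Finset.univ.filter (fun i => FoV m p q s blk (L.get i) true R') with hS₀
        have hgv : g (Fm.modL L) x = (∑ i, (b (L.get i) x).toNat) + (p - 1) * S₀.card := by
          have : g (Fm.modL L) x = (lf (Fm.modL L) x).elim 0 (fun R' =>
            (∑ i, (b (L.get i) x).toNat) +
            (p - 1) * (Finset.univ.filter (fun i => FoV m p q s blk (L.get i) true R')).card) :=
            rfl
          rw [this, hlfx]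
          rfl
        rw [hgv] at hx2
        have hdvd : p ∣ ∑ i, (b (L.get i) x).toNat ↔ p ∣ S₀.card := by
          have h5 : (∑ i, (b (L.get i) x).toNat) + (p - 1) * S₀.card + S₀.card =
              (∑ i, (b (L.get i) x).toNat) + p * S₀.card := by
            obtain ⟨r, hr⟩ : ∃ r, p = r + 1 := ⟨p - 1, by omega⟩
            rw [hr, Nat.add_sub_cancel]
            ring
          have h6 : p ∣ (∑ i, (b (L.get i) x).toNat) + p * S₀.card ↔
              p ∣ ∑ i, (b (L.get i) x).toNat := Nat.dvd_add_left (Dvd.intro _ rfl)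
          rw [← h6, ← h5]
          exact (Nat.dvd_add_right hx2)
        have huniq : ∀ U : Finset (Fin L.length),
            (∀ i ∈ U, FoV m p q s blk (L.get i) true R') →
            (∀ i, i ∉ U → FoV m p q s blk (L.get i) false R') → U = S₀ := by
          intro U hU1 hU2
          ext i
          rw [hS₀, Finset.mem_filter]
          refine ⟨fun hi => ⟨Finset.mem_univ _, hU1 i hi⟩, fun hi => ?_⟩
          by_contra hiU
          have hzsub : L.get i ∈ subs π := subs_trans hL (isSub_modL (List.get_mem L i))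
          have hzs : (L.get i).vars.card ≤ m :=
            (Finset.card_le_card (vars_sub (isSub_modL (List.get_mem L i)))).trans hsm
          have hzΓ : L.get i ∈ GamV m π G := by
            have := sbV_mem_GamV (m := m) (G := G) hzsub (small_over hzs) ∅
            rwa [sbV_small hgsm hzs] at this
          have hT := hi.2
          have hF := hU2 i hiU
          rw [h3] at hT hF
          exact hcons _ hzΓ x ⟨t, h1, h2, hT⟩ ⟨t, h1, h2, hF⟩
        rw [hsum, hbval _ x R' hlfx, decide_eq_decide, hdvd]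
        constructor
        · rintro ⟨U, hU1, hU2, hU3⟩
          rw [← huniq U hU1 hU2]
          exact of_decide_eq_true hU3.symm
        · intro hdv
          rcases h4 with h4 | ⟨U, hU1, hU2, hU3⟩
          · exact h4
          · rw [huniq U hU1 hU2] at hU3
            rw [decide_eq_true hdv] at hU3
            simp at hU3
  refine H.no_refutation hκp hκt (fun A hA => depthOver_subs hd hA) hDm hR (Fs := Fs) ?_ hw hw2
    hπ (fun A hA => ⟨A, hA, Fm.IsSub.refl⟩)
  rintro C hC H' _ x ⟨t, ht1, ht2, ht3⟩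
  rw [ovPartV_clause hgl] at ht3
  refine hFs C hC _ ((hPMu x).mono (Finset.union_subset_union_right ht1)) ?_ ht3
  have h6 := hroom' x t ∅ ht2 (by simp)
  rw [Finset.union_empty] at h6
  have h8 : q * s * 1 ≤ q * s * (d + 2) := Nat.mul_le_mul_left _ (by omega)
  have e2 : q * ((ρ ∪ t).card + 1) = q * (ρ ∪ t).card + q := by ring
  omega

end Pool.Agent.Helper21.Sml
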