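import Pool.Agent.Helper21.Sml.Sim

/-!
Simulation of the rules.
-/

namespace Pool.Agent.Helper21.Sml

open scoped BigOperators Classical
open Pool.Agent.Helper21.AC0p Pool.Agent.Helper21.Mix

set_option linter.unusedSectionVars false

variable {X K : Type} [Field K] {𝔉 : Filt X K} {m p : ℕ} {b st : Fm → X → Bool} {G : Finset Fm}
  {d : ℕ} {Ax : Set (X → K)} {w D0 t g0 : ℕ} {S Γ : Set Fm} {T F : Fm → X → Prop}

/-- Truth at a point, including forced truth. -/
def TVV (m p : ℕ) (G : Finset Fm) (b : Fm → X → Bool) (d : ℕ) (T : Fm → X → Prop) (z : Fm) (x : X) :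
    Prop :=
  ovalV m p G b d x z = true ∨ (z.OverV m G ∧ T (sbV G (HxV m p G b d x) z) x)

theorem SmlHyp.T_cst (H : SmlHyp 𝔉 Ax m p w D0 t g0 G S Γ b st T F) (c : Prop) (x : X) :
    T (cst c) x ↔ c := by
  unfold cst
  by_cases hc : c
  · rw [if_pos hc, H.tneg]
    exact ⟨fun _ => hc, fun _ => H.fnil x⟩
  · rw [if_neg hc, H.tor]
    exact ⟨fun h => by obtain ⟨z, hz, _⟩ := h; simp at hz, fun h => absurd h hc⟩

theorem SmlHyp.F_cst (H : SmlHyp 𝔉 Ax m p w D0 t g0 G S Γ b st T F) (c : Prop) (x : X) :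
    F (cst c) x ↔ ¬ c := by
  unfold cst
  by_cases hc : c
  · rw [if_pos hc, H.fneg, H.tor]
    exact ⟨fun h => by obtain ⟨z, hz, _⟩ := h; simp at hz, fun h => absurd hc h⟩
  · rw [if_neg hc]
    exact ⟨fun _ => hc, fun _ => H.fnil x⟩

theorem SmlHyp.T_at (H : SmlHyp 𝔉 Ax m p w D0 t g0 G S Γ b st T F) {z : Fm} (hz : z ∈ G) (x : X) :
    T (sbV G (HxV m p G b d x) z) x ↔ ovalV m p G b d x z = true := by
  rw [sbV_mem H.gv hz, H.T_cst, HxV, Finset.mem_filter]
  exact ⟨fun h => h.2, fun h => ⟨hz, h⟩⟩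

theorem SmlHyp.F_at (H : SmlHyp 𝔉 Ax m p w D0 t g0 G S Γ b st T F) {z : Fm} (hz : z ∈ G) (x : X) :
    F (sbV G (HxV m p G b d x) z) x ↔ ovalV m p G b d x z = false := by
  rw [sbV_mem H.gv hz, H.F_cst, HxV, Finset.mem_filter]
  constructor
  · intro h
    by_contra hcon
    exact h ⟨hz, by simpa using hcon⟩
  · rintro h ⟨_, h'⟩
    rw [h] at h'; simp at h'

/-- Truth of a formula over `G`. -/
theorem SmlHyp.T_of_val (H : SmlHyp 𝔉 Ax m p w D0 t g0 G S Γ b st T F) {z : Fm} (hzS : z ∈ S)
    (hd : z.depthOver m ≤ d) (hO : z.OverV m G) (x : X) (h : ovalV m p G b d x z = true) :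
    T (sbV G (HxV m p G b d x) z) x := by
  by_cases hz : z ∈ G
  · exact (H.T_at hz x).2 h
  · rw [ovalV_over H.gsm hd hO hz] at h
    exact H.semT _ (H.ov z hzS hO _ (HxV_sub x)) x h

theorem SmlHyp.F_iff (H : SmlHyp 𝔉 Ax m p w D0 t g0 G S Γ b st T F) {z : Fm} (hzS : z ∈ S)
    (hd : z.depthOver m ≤ d) (hO : z.OverV m G) (x : X)
    (hst : z ∉ G → st (sbV G (HxV m p G b d x) z) x = false) :
    F (sbV G (HxV m p G b d x) z) x ↔ ovalV m p G b d x z = false := by
  by_cases hz : z ∈ G
  · exact H.F_at hz x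
  · have hΓ := H.ov z hzS hO _ (HxV_sub (m := m) (p := p) (b := b) (d := d) x)
    constructor
    · intro h
      by_contra hcon
      exact H.cons _ hΓ x (H.T_of_val hzS hd hO x (by simpa using hcon)) h
    · intro h
      rw [ovalV_over H.gsm hd hO hz] at h
      exact H.semF _ hΓ x (hst hz) h

theorem SmlHyp.TV_iff (H : SmlHyp 𝔉 Ax m p w D0 t g0 G S Γ b st T F) {z : Fm} (hzS : z ∈ S)
    (hd : z.depthOver m ≤ d) (x : X)
    (hst : z.OverV m G → z ∉ G → st (sbV G (HxV m p G b d x) z) x = false) :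
    TVV m p G b d T z x ↔ ovalV m p G b d x z = true := by
  constructor
  · rintro (h | ⟨hO, hT⟩)
    · exact h
    · by_contra hcon
      have h1 : ovalV m p G b d x z = false := by simpa using hcon
      exact H.cons _ (H.ov z hzS hO _ (HxV_sub x)) x hT ((H.F_iff hzS hd hO x (hst hO)).2 h1)
  · exact Or.inl

theorem SmlHyp.orL_iff (H : SmlHyp 𝔉 Ax m p w D0 t g0 G S Γ b st T F) {L : List Fm} {x : X}
    (hL : Fm.orL L ∈ S) (hd : ∀ A ∈ S, A.depthOver m ≤ d)
    (hst : st (ovPartV m G (HxV m p G b d x) L) x = false) :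
    ovalV m p G b d x (Fm.orL L) = true ↔ ∃ z ∈ L, TVV m p G b d T z x := by
  have hΓ := H.ovp L hL _ (HxV_sub (m := m) (p := p) (b := b) (d := d) x)
  have hT : T (ovPartV m G (HxV m p G b d x) L) x ↔
      ∃ z ∈ L, z.OverV m G ∧ T (sbV G (HxV m p G b d x) z) x := by
    unfold ovPartV
    rw [H.tor]
    constructor
    · rintro ⟨z', hz', hTz⟩
      rw [List.mem_map] at hz'
      obtain ⟨z, hz, rfl⟩ := hz'
      rw [List.mem_filter] at hz
      exact ⟨z, hz.1, by simpa using hz.2, hTz⟩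
    · rintro ⟨z, hz, hm, hTz⟩
      exact ⟨_, List.mem_map.2 ⟨z, by rw [List.mem_filter]; exact ⟨hz, by simpa using hm⟩, rfl⟩,
        hTz⟩
  rw [ovalV_orL H.gsm (hd _ hL), Bool.or_eq_true, decide_eq_true_eq]
  constructor
  · rintro (h | ⟨z, hz, _, h⟩)
    · obtain ⟨z, hz, hm, hTz⟩ := hT.1 (H.semT _ hΓ x h)
      exact ⟨z, hz, Or.inr ⟨hm, hTz⟩⟩
    · exact ⟨z, hz, Or.inl h⟩
  · rintro ⟨z, hz, h⟩
    have hzS : z ∈ S := H.sub _ hL _ (isSub_orL hz)
    by_cases hm : z.OverV m G
    · left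
      have hTz : T (sbV G (HxV m p G b d x) z) x := by
        rcases h with h | h
        · exact H.T_of_val hzS (hd z hzS) hm x h
        · exact h.2
      by_contra hcon
      have hb : b (ovPartV m G (HxV m p G b d x) L) x = false := by simpa using hcon
      exact H.cons _ hΓ x (hT.2 ⟨z, hz, hm, hTz⟩) (H.semF _ hΓ x hst hb)
    · right
      rcases h with h | h
      · exact ⟨z, hz, hm, h⟩
      · exact absurd h.1 hm

/-- The item of a formula. -/
noncomputable def itmV (m : ℕ) (G : Finset Fm) (A : Fm) : Finset Fm → Fm :=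
  fun H => if A.OverV m G ∧ A ∉ G then sbV G H A else Fm.orL []

mutual
/-- Number of relevant items. -/
def cntFV : FSch → ℕ
  | .mv _ => 1
  | .neg s => cntFV s + 1
  | .or l => cntLV l + 1
  | .mod l => cntLV l + 1
def cntLV : LSch → ℕ
  | .nil => 0
  | .cons s l => cntFV s + cntLV l
  | .app _ l => cntLV l
end

/-- Cost of a rule. -/
def ruleCostV (r : Rule) : ℕ :=
  r.prems.length + (r.prems.map cntFV).sum + cntFV r.concl + 1

mutual
/-- The items relevant for a scheme. -/
noncomputable def itFV (m : ℕ) (G : Finset Fm) (σ : ℕ → Fm) (τ : ℕ → List Fm) :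
    FSch → List (Finset Fm → Fm)
  | .mv i => [itmV m G (σ i)]
  | .neg s => itmV m G (Fm.neg (s.inst σ τ)) :: itFV m G σ τ s
  | .or l => (fun H => ovPartV m G H (l.inst σ τ)) :: itLV m G σ τ l
  | .mod l => itmV m G (Fm.modL (l.inst σ τ)) :: itLV m G σ τ l
noncomputable def itLV (m : ℕ) (G : Finset Fm) (σ : ℕ → Fm) (τ : ℕ → List Fm) :
    LSch → List (Finset Fm → Fm)
  | .nil => []
  | .cons s l => itFV m G σ τ s ++ itLV m G σ τ l
  | .app _ l => itLV m G σ τ l
end

mutual
theorem length_itFV (m : ℕ) (G : Finset Fm) (σ : ℕ → Fm) (τ : ℕ → List Fm) :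
    (s : FSch) → (itFV m G σ τ s).length = cntFV s
  | .mv i => rfl
  | .neg s => by rw [itFV, cntFV, List.length_cons, length_itFV m G σ τ s]
  | .or l => by rw [itFV, cntFV, List.length_cons, length_itLV m G σ τ l]
  | .mod l => by rw [itFV, cntFV, List.length_cons, length_itLV m G σ τ l]
theorem length_itLV (m : ℕ) (G : Finset Fm) (σ : ℕ → Fm) (τ : ℕ → List Fm) :
    (l : LSch) → (itLV m G σ τ l).length = cntLV l
  | .nil => rfl
  | .cons s l => by
      rw [itLV, cntLV, List.length_append, length_itFV m G σ τ s, length_itLV m G σ τ l]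
  | .app _ l => by rw [itLV, cntLV, length_itLV m G σ τ l]
end

/-- The value of the item is in `Γ` and depends on few members of `G`. -/
def Item (G : Finset Fm) (S Γ : Set Fm) (it : Finset Fm → Fm) : Prop :=
  (∀ H' ⊆ G, it H' ∈ Γ) ∧ ∃ A ∈ S, ∀ H₁ H₂ : Finset Fm,
    (∀ g ∈ G, Fm.IsSub g A → (g ∈ H₁ ↔ g ∈ H₂)) → it H₁ = it H₂

theorem itm_mem (H : SmlHyp 𝔉 Ax m p w D0 t g0 G S Γ b st T F) {A : Fm} (hA : A ∈ S) :
    Item G S Γ (itmV m G A) := by
  refine ⟨?_, A, hA, ?_⟩
  · intro H' hH'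
    unfold itmV
    by_cases h : A.OverV m G ∧ A ∉ G
    · rw [if_pos h]; exact H.ov A hA h.1 H' hH'
    · rw [if_neg h]; exact H.nil
  · intro H₁ H₂ h12
    unfold itmV
    by_cases h : A.OverV m G ∧ A ∉ G
    · rw [if_pos h, if_pos h]; exact sbV_congr A h12
    · rw [if_neg h, if_neg h]

theorem ovp_mem (H : SmlHyp 𝔉 Ax m p w D0 t g0 G S Γ b st T F) {L : List Fm}
    (hA : Fm.orL L ∈ S) : Item G S Γ (fun H' => ovPartV m G H' L) := by
  refine ⟨H.ovp L hA, Fm.orL L, hA, ?_⟩
  intro H₁ H₂ h12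
  refine ovPartV_congr L ?_
  intro z hz g hg hs
  refine h12 g hg ?_
  obtain ⟨i, rfl⟩ := List.get_of_mem hz
  exact Fm.IsSub.or i hs

theorem inst_mem_itFV (H : SmlHyp 𝔉 Ax m p w D0 t g0 G S Γ b st T F) (σ : ℕ → Fm) (τ : ℕ → List Fm)
    (s : FSch) (x : X) (hO : (s.inst σ τ).OverV m G) (hG : s.inst σ τ ∉ G)
    (hst : ∀ it ∈ itFV m G σ τ s, st (it (HxV m p G b d x)) x = false) :
    st (sbV G (HxV m p G b d x) (s.inst σ τ)) x = false := by
  have key : ∀ A : Fm, A.OverV m G → A ∉ G → itmV m G A (HxV m p G b d x) = sbV G (HxV m p G b d x) A := by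
    intro A h1 h2
    unfold itmV
    rw [if_pos ⟨h1, h2⟩]
  cases s with
  | mv i =>
    rw [← key _ hO hG]
    exact hst _ (by simp [itFV, FSch.inst])
  | neg s =>
    rw [← key _ hO hG]
    exact hst _ (by simp [itFV, FSch.inst])
  | or l =>
    rw [FSch.inst] at hO hG ⊢
    rw [← ovPartV_eq hG hO]
    exact hst (fun H => ovPartV m G H (l.inst σ τ)) (by rw [itFV]; exact List.mem_cons_self)
  | mod l =>
    rw [FSch.inst] at hO hG ⊢
    rw [← key _ hO hG]
    exact hst _ (by rw [itFV]; exact List.mem_cons_self)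

mutual
theorem SmlHyp.itF_mem (H : SmlHyp 𝔉 Ax m p w D0 t g0 G S Γ b st T F) (σ : ℕ → Fm)
    (τ : ℕ → List Fm) :
    (s : FSch) → s.inst σ τ ∈ S → ∀ it ∈ itFV m G σ τ s, Item G S Γ it
  | .mv i => fun h it hit => by
      rw [itFV, List.mem_singleton] at hit
      subst hit
      exact itm_mem H h
  | .neg s => fun h it hit => by
      rw [itFV, List.mem_cons] at hit
      rcases hit with rfl | hit
      · exact itm_mem H h
      · exact H.itF_mem σ τ s (H.sub _ h _ (Fm.IsSub.neg Fm.IsSub.refl)) it hit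
  | .or l => fun h it hit => by
      rw [itFV, List.mem_cons] at hit
      rcases hit with rfl | hit
      · exact ovp_mem H h
      · exact H.itL_mem σ τ l (fun B hB => H.sub _ h _ (isSub_orL hB)) it hit
  | .mod l => fun h it hit => by
      rw [itFV, List.mem_cons] at hit
      rcases hit with rfl | hit
      · exact itm_mem H h
      · exact H.itL_mem σ τ l (fun B hB => H.sub _ h _ (isSub_modL hB)) it hit
theorem SmlHyp.itL_mem (H : SmlHyp 𝔉 Ax m p w D0 t g0 G S Γ b st T F) (σ : ℕ → Fm)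
    (τ : ℕ → List Fm) :
    (l : LSch) → (∀ B ∈ l.inst σ τ, B ∈ S) → ∀ it ∈ itLV m G σ τ l, Item G S Γ it
  | .nil => fun h it hit => by simp [itLV] at hit
  | .cons s l => fun h it hit => by
      rw [LSch.inst] at h
      rw [itLV, List.mem_append] at hit
      rcases hit with hit | hit
      · exact H.itF_mem σ τ s (h _ (by simp)) it hit
      · exact H.itL_mem σ τ l (fun B hB => h B (by simp [hB])) it hit
  | .app j l => fun h it hit => by
      rw [LSch.inst] at h
      rw [itLV] at hit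
      exact H.itL_mem σ τ l (fun B hB => h B (by simp [hB])) it hit
end

/-- The value of a `MOD_p` formula with few variables. -/
theorem SmlHyp.mod_val (H : SmlHyp 𝔉 Ax m p w D0 t g0 G S Γ b st T F)
    (hd : ∀ A ∈ S, A.depthOver m ≤ d)
    {L : List Fm} {x : X} (hL : Fm.modL L ∈ S) (hO : (Fm.modL L).OverV m G)
    (hG : Fm.modL L ∉ G) (hst : st (Fm.modL L) x = false) :
    ovalV m p G b d x (Fm.modL L) =
      decide (p ∣ (L.map (fun z => (ovalV m p G b d x z).toNat)).sum) := by
  have hsm : (Fm.modL L).vars.card ≤ m := hO.resolve_left hG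
  have hv : ovalV m p G b d x (Fm.modL L) = b (Fm.modL L) x := by
    rw [ovalV_over H.gsm (hd _ hL) hO hG, sbV_small H.gsm hsm]
  have hz : ∀ z ∈ L, ovalV m p G b d x z = b z x := by
    intro z hz
    have hzs : z.vars.card ≤ m :=
      (Finset.card_le_card (vars_sub (isSub_modL hz))).trans hsm
    rw [ovalV_over H.gsm (hd _ (H.sub _ hL _ (isSub_modL hz))) (small_over hzs)
      (fun hg => H.gsm _ hg hzs), sbV_small H.gsm hzs]
  rw [hv, H.md L hL hsm x hst]
  have : L.map (fun z => (b z x).toNat) = L.map (fun z => (ovalV m p G b d x z).toNat) :=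
    List.map_congr_left (fun z hzL => by rw [hz z hzL])
  rw [this]

mutual
theorem SmlHyp.val_inst (H : SmlHyp 𝔉 Ax m p w D0 t g0 G S Γ b st T F) (hd : ∀ A ∈ S, A.depthOver m ≤ d)
    (σ : ℕ → Fm) (τ : ℕ → List Fm) (x : X) :
    (s : FSch) → s.inst σ τ ∈ S → (∀ it ∈ itFV m G σ τ s, st (it (HxV m p G b d x)) x = false) →
      ovalV m p G b d x (s.inst σ τ) = s.val p (fun i => ovalV m p G b d x (σ i))
        (fun j => decide (∀ z ∈ τ j, ¬ TVV m p G b d T z x))
        (fun j => ((τ j).map (fun z => (ovalV m p G b d x z).toNat)).sum)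
  | .mv i => fun _ _ => by simp [FSch.inst, FSch.val]
  | .neg s => fun h hst => by
      rw [FSch.inst] at h
      have hs : s.inst σ τ ∈ S := H.sub _ h _ (Fm.IsSub.neg Fm.IsSub.refl)
      have hst' : ∀ it ∈ itFV m G σ τ s, st (it (HxV m p G b d x)) x = false :=
        fun it hit => hst it (by rw [itFV]; exact List.mem_cons_of_mem _ hit)
      have ih := H.val_inst hd σ τ x s hs hst'
      rw [FSch.inst, FSch.val, ← ih]
      by_cases hm : (Fm.neg (s.inst σ τ)).OverV m G ∧ Fm.neg (s.inst σ τ) ∉ G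
      · have hO : (s.inst σ τ).OverV m G := hm.1.resolve_left hm.2
        have h0 : sbV G (HxV m p G b d x) (Fm.neg (s.inst σ τ)) =
            Fm.neg (sbV G (HxV m p G b d x) (s.inst σ τ)) := sbV_neg hm.2
        have hΓ := H.ov _ h hm.1 _ (HxV_sub (m := m) (p := p) (b := b) (d := d) x)
        have hstn : st (sbV G (HxV m p G b d x) (Fm.neg (s.inst σ τ))) x = false := by
          have := hst (itmV m G (Fm.neg (s.inst σ τ))) (by rw [itFV]; exact List.mem_cons_self)
          unfold itmV at this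
          rwa [if_pos hm] at this
        have hF := H.F_iff (p := p) hs (hd _ hs) hO x
          (fun hG => inst_mem_itFV H σ τ s x hO hG hst')
        rw [Bool.eq_iff_iff, Bool.not_eq_true', ← hF, ← H.tneg, ← h0]
        constructor
        · intro h1
          exact H.T_of_val h (hd _ h) hm.1 x h1
        · intro h1
          by_contra hcon
          exact H.cons _ hΓ x h1 ((H.F_iff (p := p) h (hd _ h) hm.1 x (fun _ => hstn)).2
            (by simpa using hcon))
      · exact ovalV_neg H.gsm (hd _ h) hm x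
  | .or l => fun h hst => by
      rw [FSch.inst] at h
      have hl : ∀ B ∈ l.inst σ τ, B ∈ S := fun B hB => H.sub _ h _ (isSub_orL hB)
      have hst' : ∀ it ∈ itLV m G σ τ l, st (it (HxV m p G b d x)) x = false :=
        fun it hit => hst it (by rw [itFV]; exact List.mem_cons_of_mem _ hit)
      have ih := H.valF_inst hd σ τ x l hl hst'
      rw [FSch.inst, FSch.val, Bool.eq_iff_iff, H.orL_iff h hd
        (hst (fun H => ovPartV m G H (l.inst σ τ)) (by rw [itFV]; exact List.mem_cons_self))]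
      simp only [Bool.not_eq_true', ← Bool.not_eq_true, ih]
      push Not
      rfl
  | .mod l => fun h hst => by
      rw [FSch.inst] at h
      have hl : ∀ B ∈ l.inst σ τ, B ∈ S := fun B hB => H.sub _ h _ (isSub_modL hB)
      have hst' : ∀ it ∈ itLV m G σ τ l, st (it (HxV m p G b d x)) x = false :=
        fun it hit => hst it (by rw [itFV]; exact List.mem_cons_of_mem _ hit)
      rw [FSch.inst, FSch.val, ← H.valC_inst hd σ τ x l hl hst']
      by_cases hm : (Fm.modL (l.inst σ τ)).OverV m G ∧ Fm.modL (l.inst σ τ) ∉ G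
      · refine H.mod_val hd h hm.1 hm.2 ?_
        have := hst (itmV m G (Fm.modL (l.inst σ τ))) (by rw [itFV]; exact List.mem_cons_self)
        unfold itmV at this
        rw [if_pos hm, Fm.modL, sbV_mod hm.2] at this
        exact this
      · exact ovalV_modL H.gsm (hd _ h) hm x
theorem SmlHyp.valF_inst (H : SmlHyp 𝔉 Ax m p w D0 t g0 G S Γ b st T F) (hd : ∀ A ∈ S, A.depthOver m ≤ d)
    (σ : ℕ → Fm) (τ : ℕ → List Fm) (x : X) :
    (l : LSch) → (∀ B ∈ l.inst σ τ, B ∈ S) →
      (∀ it ∈ itLV m G σ τ l, st (it (HxV m p G b d x)) x = false) →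
      (l.valF p (fun i => ovalV m p G b d x (σ i))
        (fun j => decide (∀ z ∈ τ j, ¬ TVV m p G b d T z x))
        (fun j => ((τ j).map (fun z => (ovalV m p G b d x z).toNat)).sum) = true ↔
      ∀ z ∈ l.inst σ τ, ¬ TVV m p G b d T z x)
  | .nil => fun _ _ => by simp [LSch.valF, LSch.inst]
  | .cons s l => fun h hst => by
      rw [LSch.inst] at h
      rw [itLV] at hst
      have hs : s.inst σ τ ∈ S := h _ (by simp)
      have h1 := H.val_inst hd σ τ x s hs (fun A hA => hst A (List.mem_append_left _ hA))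
      have h2 := H.valF_inst hd σ τ x l (fun B hB => h B (by simp [hB]))
        (fun A hA => hst A (List.mem_append_right _ hA))
      have h3 := H.TV_iff (p := p) hs (hd _ hs) x (fun hO hG => inst_mem_itFV H σ τ s x hO hG
        (fun A hA => hst A (List.mem_append_left _ hA)))
      rw [LSch.valF, LSch.inst, Bool.and_eq_true, h2, ← h1]
      simp only [List.mem_cons, forall_eq_or_imp, h3]
      simp
  | .app j l => fun h hst => by
      rw [LSch.inst] at h
      rw [itLV] at hst
      have h2 := H.valF_inst hd σ τ x l (fun B hB => h B (by simp [hB])) hst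
      rw [LSch.valF, LSch.inst, Bool.and_eq_true, h2, decide_eq_true_eq]
      simp only [List.mem_append]
      constructor
      · rintro ⟨h3, h4⟩ z (hz | hz)
        · exact h3 z hz
        · exact h4 z hz
      · intro h3
        exact ⟨fun z hz => h3 z (Or.inl hz), fun z hz => h3 z (Or.inr hz)⟩
theorem SmlHyp.valC_inst (H : SmlHyp 𝔉 Ax m p w D0 t g0 G S Γ b st T F) (hd : ∀ A ∈ S, A.depthOver m ≤ d)
    (σ : ℕ → Fm) (τ : ℕ → List Fm) (x : X) :
    (l : LSch) → (∀ B ∈ l.inst σ τ, B ∈ S) →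
      (∀ it ∈ itLV m G σ τ l, st (it (HxV m p G b d x)) x = false) →
      ((l.inst σ τ).map (fun z => (ovalV m p G b d x z).toNat)).sum =
      l.valC p (fun i => ovalV m p G b d x (σ i))
        (fun j => decide (∀ z ∈ τ j, ¬ TVV m p G b d T z x))
        (fun j => ((τ j).map (fun z => (ovalV m p G b d x z).toNat)).sum)
  | .nil => fun _ _ => by simp [LSch.valC, LSch.inst]
  | .cons s l => fun h hst => by
      rw [LSch.inst] at h
      rw [itLV] at hst
      have hs : s.inst σ τ ∈ S := h _ (by simp)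
      have h1 := H.val_inst hd σ τ x s hs (fun A hA => hst A (List.mem_append_left _ hA))
      have h2 := H.valC_inst hd σ τ x l (fun B hB => h B (by simp [hB]))
        (fun A hA => hst A (List.mem_append_right _ hA))
      rw [LSch.valC, LSch.inst, List.map_cons, List.sum_cons, h2, ← h1]
  | .app j l => fun h hst => by
      rw [LSch.inst] at h
      rw [itLV] at hst
      have h2 := H.valC_inst hd σ τ x l (fun B hB => h B (by simp [hB])) hst
      rw [LSch.valC, LSch.inst, List.map_append, List.sum_append, h2]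
end

theorem length_flatMap_itFV (m : ℕ) (G : Finset Fm) (σ : ℕ → Fm) (τ : ℕ → List Fm) (l : List FSch) :
    (l.flatMap (itFV m G σ τ)).length = (l.map cntFV).sum := by
  rw [List.length_flatMap]
  congr 1
  exact List.map_congr_left (fun s _ => length_itFV m G σ τ s)

theorem SmlHyp.item_comp [hp : Fact p.Prime] [CharP K p]
    (H : SmlHyp 𝔉 Ax m p w D0 t g0 G S Γ b st T F) {κ Dm : ℕ} (hκp : p ≤ κ)
    (hκt : t + g0 + 1 ≤ κ) (hd : ∀ A ∈ S, A.depthOver m ≤ d)
    (hDm : g0 * (κ ^ d * D0) + κ ^ d * D0 ≤ Dm) (hDw : Dm ≤ w) {it : Finset Fm → Fm}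
    (hit : Item G S Γ it) : ind K (fun x => st (it (HxV m p G b d x)) x) ∈ 𝔉.LD Dm ∧
      Der 𝔉 Ax w (ind K (fun x => st (it (HxV m p G b d x)) x)) := by
  have hκ1 : 1 ≤ κ := by omega
  have hD0 : D0 ≤ κ ^ d * D0 := Nat.le_mul_of_pos_left _ (Nat.pow_pos (by omega))
  obtain ⟨hit, A, hA, hloc⟩ := hit
  set G' : Finset Fm := G.filter (fun g => Fm.IsSub g A) with hG'
  have hG'G : G' ⊆ G := Finset.filter_subset _ _
  have hG'c : G'.card ≤ g0 := H.loc A hA
  have hgd : ∀ g ∈ G', ind K (fun x => ovalV m p G b d x g) ∈ 𝔉.LD (κ ^ d * D0) :=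
    fun g hg => H.deg hκp hκt hd d g (H.gs g (hG'G hg)) (hd g (H.gs g (hG'G hg)))
  have hc : G'.card * (κ ^ d * D0) ≤ g0 * (κ ^ d * D0) := Nat.mul_le_mul_right _ hG'c
  have e : (fun x => st (it (HxV m p G b d x)) x) = (fun x => st (it
      (G'.filter (fun g => ovalV m p G b d x g = true))) x) := by
    funext x
    rw [hloc _ (G'.filter (fun g => ovalV m p G b d x g = true))
      (fun g hg hs => HxV_mem_iff x hG'G (Finset.mem_filter.2 ⟨hg, hs⟩))]
  rw [e]
  constructor
  · refine 𝔉.mono ?_ (pat_mem (D := κ ^ d * D0) (D0 := D0) (fun g x => ovalV m p G b d x g) G' hgd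
      (fun H' x => st (it H') x) (fun H' hH' => H.sdeg _ (hit H' (hH'.trans hG'G))))
    omega
  · exact pat_der (D := κ ^ d * D0) (D0 := D0) (fun g x => ovalV m p G b d x g) G' hgd
      (fun H' x => st (it H') x)
      (fun H' hH' => ⟨H.sdeg _ (hit H' (hH'.trans hG'G)), H.sder _ (hit H' (hH'.trans hG'G))⟩)
      (by omega)

theorem SmlHyp.rule [hp : Fact p.Prime] [CharP K p]
    (H : SmlHyp 𝔉 Ax m p w D0 t g0 G S Γ b st T F) {κ Dm : ℕ} (hκp : p ≤ κ) (hκt : t + g0 + 1 ≤ κ)
    (hd : ∀ A ∈ S, A.depthOver m ≤ d) (hDm : g0 * (κ ^ d * D0) + κ ^ d * D0 ≤ Dm) (hDw : Dm ≤ w)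
    {r : Rule} (hr : r.Sound p) (σ : ℕ → Fm) (τ : ℕ → List Fm)
    (hS : ∀ s ∈ r.prems, s.inst σ τ ∈ S) (hc : r.concl.inst σ τ ∈ S)
    (hprem : ∀ s ∈ r.prems, Der 𝔉 Ax w (ind K (fun x => !(ovalV m p G b d x (s.inst σ τ)))))
    (hw : ruleCostV r * Dm ≤ w) :
    Der 𝔉 Ax w (ind K (fun x => !(ovalV m p G b d x (r.concl.inst σ τ)))) := by
  have hκ1 : 1 ≤ κ := by omega
  have hD0 : D0 ≤ κ ^ d * D0 := Nat.le_mul_of_pos_left _ (Nat.pow_pos (by omega))
  have hdeg : ∀ A ∈ S, ind K (fun x => !(ovalV m p G b d x A)) ∈ 𝔉.LD Dm := by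
    intro A hA
    rw [ind_not]
    refine Submodule.sub_mem _ (𝔉.one_mem' _) (𝔉.mono ?_ (H.deg hκp hκt hd d A hA (hd A hA)))
    omega
  have hit : ∀ it ∈ r.prems.flatMap (itFV m G σ τ) ++ itFV m G σ τ r.concl, Item G S Γ it := by
    intro A hA
    rcases List.mem_append.1 hA with hA | hA
    · rw [List.mem_flatMap] at hA
      obtain ⟨s, hs, hA⟩ := hA
      exact H.itF_mem σ τ s (hS s hs) A hA
    · exact H.itF_mem σ τ r.concl hc A hA
  have hcomp : ∀ it : Finset Fm → Fm, Item G S Γ it →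
      ind K (fun x => st (it (HxV m p G b d x)) x) ∈ 𝔉.LD Dm ∧
      Der 𝔉 Ax w (ind K (fun x => st (it (HxV m p G b d x)) x)) :=
    fun it hit => H.item_comp hκp hκt hd hDm (by omega) hit
  refine der_of_cover (D := Dm)
    (r.prems.map (fun s x => !(ovalV m p G b d x (s.inst σ τ))) ++
      (r.prems.flatMap (itFV m G σ τ) ++ itFV m G σ τ r.concl).map
        (fun it x => st (it (HxV m p G b d x)) x)) ?_ _ _ (hdeg _ hc) ?_ ?_
  · intro h hh
    rcases List.mem_append.1 hh with hh | hh
    · rw [List.mem_map] at hh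
      obtain ⟨s, hs, rfl⟩ := hh
      exact ⟨hdeg _ (hS s hs), hprem s hs⟩
    · rw [List.mem_map] at hh
      obtain ⟨it, hit', rfl⟩ := hh
      exact hcomp it (hit it hit')
  · intro x hx
    by_contra hcon
    push Not at hcon
    have hst : ∀ it ∈ r.prems.flatMap (itFV m G σ τ) ++ itFV m G σ τ r.concl,
        st (it (HxV m p G b d x)) x = false := by
      intro it hit'
      have := hcon _ (List.mem_append_right _ (List.mem_map.2 ⟨it, hit', rfl⟩))
      simpa using this
    have hpt : ∀ s ∈ r.prems, ovalV m p G b d x (s.inst σ τ) = true := by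
      intro s hs
      have := hcon _ (List.mem_append_left _ (List.mem_map.2 ⟨s, hs, rfl⟩))
      simpa using this
    have h1 := H.val_inst (p := p) hd σ τ x r.concl hc
      (fun A hA => hst A (List.mem_append_right _ hA))
    have h2 : r.concl.val p (fun i => ovalV m p G b d x (σ i))
        (fun j => decide (∀ z ∈ τ j, ¬ TVV m p G b d T z x))
        (fun j => ((τ j).map (fun z => (ovalV m p G b d x z).toNat)).sum) = true := by
      refine hr.val hp.out.pos _ _ _ ?_ ?_
      · intro j hj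
        rw [decide_eq_true_eq] at hj
        apply List.sum_eq_zero
        intro n hn
        rw [List.mem_map] at hn
        obtain ⟨z, hz, rfl⟩ := hn
        have : ovalV m p G b d x z = false := by
          by_contra hcon
          exact hj z hz (Or.inl (by simpa using hcon))
        rw [this]; rfl
      · intro s hs
        rw [← H.val_inst (p := p) hd σ τ x s (hS s hs)
          (fun A hA => hst A (List.mem_append_left _ (List.mem_flatMap.2 ⟨s, hs, hA⟩)))]
        exact hpt s hs
    rw [h1, h2] at hx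
    simp at hx
  · rw [List.length_append, List.length_map, List.length_map, List.length_append,
      length_flatMap_itFV, length_itFV]
    refine le_trans (le_of_eq ?_) hw
    unfold ruleCostV
    ring

theorem over_clauseFm (G : Finset Fm) (C : Clause) : (clauseFm C).OverV m G := by
  right
  intro i
  have hi := List.get_mem (C.map litFm) i
  rw [List.mem_map] at hi
  obtain ⟨⟨j, c⟩, _, hl⟩ := hi
  rw [← hl]
  cases c
  · exact Or.inr trivial
  · exact trivial

/-- Refutations are impossible. -/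
theorem SmlHyp.no_refutation [hp : Fact p.Prime] [CharP K p]
    (H : SmlHyp 𝔉 Ax m p w D0 t g0 G S Γ b st T F) {κ Dm : ℕ} (hκp : p ≤ κ) (hκt : t + g0 + 1 ≤ κ)
    (hd : ∀ A ∈ S, A.depthOver m ≤ d) (hDm : g0 * (κ ^ d * D0) + κ ^ d * D0 ≤ Dm)
    {R : List Rule} (hR : ∀ r ∈ R, r.Sound p) {Fs : List Clause}
    (hF : ∀ C ∈ Fs, ∀ H' ⊆ G, ∀ x, ¬ F (ovPartV m G H' (C.map litFm)) x)
    (hw : ∀ r ∈ R, ruleCostV r * Dm ≤ w) (hw2 : 2 * Dm ≤ w)
    {π : List Fm} (hπ : Refutation R Fs π) (hS : ∀ A ∈ π, A ∈ S) : Der 𝔉 Ax w 1 := by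
  have hκ1 : 1 ≤ κ := by omega
  have hD0 : D0 ≤ κ ^ d * D0 := Nat.le_mul_of_pos_left _ (Nat.pow_pos (by omega))
  have hdeg : ∀ A ∈ S, ind K (fun x => ovalV m p G b d x A) ∈ 𝔉.LD Dm := by
    intro A hA
    refine 𝔉.mono ?_ (H.deg hκp hκt hd d A hA (hd A hA))
    omega
  have hcomp : ∀ it : Finset Fm → Fm, Item G S Γ it →
      ind K (fun x => st (it (HxV m p G b d x)) x) ∈ 𝔉.LD Dm ∧
      Der 𝔉 Ax w (ind K (fun x => st (it (HxV m p G b d x)) x)) :=
    fun it hit => H.item_comp hκp hκt hd hDm (by omega) hit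
  have hder : ∀ (π : List Fm), Derivation R Fs π → (∀ A ∈ π, A ∈ S) →
      ∀ A ∈ π, Der 𝔉 Ax w (ind K (fun x => !(ovalV m p G b d x A))) := by
    intro π hπ
    induction hπ with
    | nil => intro _ A hA; simp at hA
    | @clause π C hd' hC ih =>
      intro hS A hA
      rcases List.mem_cons.1 hA with rfl | hA
      · have hCS : clauseFm C ∈ S := hS _ (by simp)
        have hit : ∀ H' ⊆ G, (fun H' => ovPartV m G H' (C.map litFm)) H' ∈ Γ :=
          fun H' hH' => H.ovp _ hCS H' hH'
        have hit2 : Item G S Γ (fun H' => ovPartV m G H' (C.map litFm)) := ovp_mem H hCS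
        obtain ⟨h1, h2⟩ := hcomp (fun H' => ovPartV m G H' (C.map litFm)) hit2
        refine der_of_cover (D := Dm)
          [fun x => st (ovPartV m G (HxV m p G b d x) (C.map litFm)) x] ?_ _ Dm ?_ ?_ ?_
        · intro h hh
          rw [List.mem_singleton] at hh
          subst hh
          exact ⟨h1, h2⟩
        · rw [ind_not]
          exact Submodule.sub_mem _ (𝔉.one_mem' _) (hdeg _ hCS)
        · intro x hx
          refine ⟨_, List.mem_singleton.2 rfl, ?_⟩
          by_contra hcon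
          have hcon' : st (ovPartV m G (HxV m p G b d x) (C.map litFm)) x = false := by
            simpa using hcon
          have h3 : ovalV m p G b d x (clauseFm C) = false := by simpa using hx
          have h4 := ovalV_orL (m := m) (p := p) (G := G) (b := b) (L := C.map litFm) H.gsm (hd _ hCS) x
          change ovalV m p G b d x (clauseFm C) = _ at h4
          rw [h3] at h4
          have h5 : b (ovPartV m G (HxV m p G b d x) (C.map litFm)) x = false := by
            by_contra hc2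
            have : b (ovPartV m G (HxV m p G b d x) (C.map litFm)) x = true := by simpa using hc2
            rw [this] at h4
            simp at h4
          exact hF C hC _ (HxV_sub x) x (H.semF _ (hit _ (HxV_sub x)) x hcon' h5)
        · rw [List.length_singleton, one_mul, ← two_mul]; exact hw2
      · exact ih (fun B hB => hS B (by simp [hB])) A hA
    | @rule π r σ τ hd' hr hprem ih =>
      intro hS A hA
      have ih' := ih (fun B hB => hS B (by simp [hB]))
      rcases List.mem_cons.1 hA with rfl | hA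
      · exact H.rule hκp hκt hd hDm (by omega) (hR r hr) σ τ
          (fun s hs => hS _ (by simp [hprem s hs]))
          (hS _ (by simp)) (fun s hs => ih' _ (hprem s hs)) (hw r hr)
      · exact ih' A hA
  have h1 := hder π hπ.1 hS _ hπ.2
  have hnilS : Fm.orL [] ∈ S := hS _ hπ.2
  have hfalse : ∀ x, ovalV m p G b d x (Fm.orL []) = false := by
    intro x
    rw [ovalV_orL H.gsm (hd _ hnilS)]
    have h5 : b (ovPartV m G (HxV m p G b d x) []) x = false := by
      by_contra hcon
      have h6 := H.semT _ (H.ovp _ hnilS _ (HxV_sub x)) x (by simpa using hcon)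
      unfold ovPartV at h6
      rw [H.tor] at h6
      obtain ⟨z, hz, _⟩ := h6
      simp at hz
    rw [h5]
    simp
  have e : ind K (fun x => !(ovalV m p G b d x (Fm.orL []))) = 1 := by
    funext x
    simp [ind, hfalse x]
  rwa [e] at h1

end Pool.Agent.Helper21.Sml
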