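import Pool.Agent.Helper21.Mix.OvRule
import Pool.Agent.Helper21.Sml.Levels

/-!
Simulation of refutations whose disjunctions have few disjuncts that are not over a set of
formulas which has few members in each line.
-/

namespace Pool.Agent.Helper21.Sml

open scoped BigOperators Classical
open Pool.Agent.Helper21.AC0p Pool.Agent.Helper21.Mix

set_option linter.unusedSectionVars false

/-- Replace the members of `G` by constants. -/
noncomputable def sbV (G H : Finset Fm) : Fm → Fm
  | .var i => .var i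
  | .neg A => if Fm.neg A ∈ G then cst (Fm.neg A ∈ H) else .neg (sbV G H A)
  | .or k f => if Fm.or k f ∈ G then cst (Fm.or k f ∈ H) else .or k (fun i => sbV G H (f i))
  | .mod k f => if Fm.mod k f ∈ G then cst (Fm.mod k f ∈ H) else .mod k f

/-- The disjuncts over `G` with the members of `G` replaced by constants. -/
noncomputable def ovPartV (m : ℕ) (G H : Finset Fm) (L : List Fm) : Fm :=
  Fm.orL ((L.filter (fun A => decide (A.OverV m G))).map (sbV G H))

theorem sbV_congr {G H H' : Finset Fm} (A : Fm)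
    (h : ∀ g ∈ G, Fm.IsSub g A → (g ∈ H ↔ g ∈ H')) : sbV G H A = sbV G H' A := by
  induction A with
  | var i => rfl
  | neg A ih =>
    simp only [sbV]
    by_cases hg : Fm.neg A ∈ G
    · rw [if_pos hg, if_pos hg]
      exact cst_congr (h _ hg Fm.IsSub.refl)
    · rw [if_neg hg, if_neg hg]
      rw [ih (fun g hg hs => h g hg (Fm.IsSub.neg hs))]
  | or k f ih =>
    simp only [sbV]
    by_cases hg : Fm.or k f ∈ G
    · rw [if_pos hg, if_pos hg]
      exact cst_congr (h _ hg Fm.IsSub.refl)
    · rw [if_neg hg, if_neg hg]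
      congr 1
      funext i
      exact ih i (fun g hg hs => h g hg (Fm.IsSub.or i hs))
  | mod k f ih =>
    simp only [sbV]
    by_cases hg : Fm.mod k f ∈ G
    · rw [if_pos hg, if_pos hg]
      exact cst_congr (h _ hg Fm.IsSub.refl)
    · rw [if_neg hg, if_neg hg]

theorem sbV_mem {G H : Finset Fm} (hv : ∀ i, Fm.var i ∉ G) {A : Fm} (hA : A ∈ G) :
    sbV G H A = cst (A ∈ H) := by
  cases A with
  | var i => exact absurd hA (hv i)
  | neg A => simp only [sbV]; rw [if_pos hA]
  | or k f => simp only [sbV]; rw [if_pos hA]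
  | mod k f => simp only [sbV]; rw [if_pos hA]

theorem sbV_neg {G H : Finset Fm} {A : Fm} (hA : Fm.neg A ∉ G) :
    sbV G H (.neg A) = .neg (sbV G H A) := by
  simp only [sbV]; rw [if_neg hA]

theorem sbV_mod {G H : Finset Fm} {k : ℕ} {f : Fin k → Fm} (hA : Fm.mod k f ∉ G) :
    sbV G H (.mod k f) = .mod k f := by
  simp only [sbV]; rw [if_neg hA]

theorem sbV_orL {G H : Finset Fm} {L : List Fm} (hA : Fm.orL L ∉ G) :
    sbV G H (Fm.orL L) = Fm.orL (L.map (sbV G H)) := by
  have h1 : sbV G H (Fm.orL L) = .or L.length (fun i => sbV G H (L.get i)) := by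
    simp only [Fm.orL, sbV]
    exact if_neg hA
  rw [h1, ← orL_ofFn]
  congr 1
  have h2 : (fun i => sbV G H (L.get i)) = sbV G H ∘ L.get := rfl
  rw [h2, ← List.map_ofFn, List.ofFn_get]

theorem overV_orL {m : ℕ} {G : Finset Fm} {L : List Fm} (hA : Fm.orL L ∉ G) :
    (Fm.orL L).OverV m G ↔ ∀ z ∈ L, z.OverV m G := by
  constructor
  · intro h z hz
    obtain ⟨i, hi⟩ := List.get_of_mem hz
    have h2 : ∀ i, (L.get i).OverV m G := h.resolve_left hA
    rw [← hi]; exact h2 i
  · intro h
    right
    intro i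
    exact h _ (List.get_mem L i)

theorem ovPartV_eq {m : ℕ} {G H : Finset Fm} {L : List Fm} (hA : Fm.orL L ∉ G)
    (hO : (Fm.orL L).OverV m G) : ovPartV m G H L = sbV G H (Fm.orL L) := by
  rw [sbV_orL hA, ovPartV, List.filter_eq_self.2]
  intro z hz
  simpa using (overV_orL hA).1 hO z hz

theorem small_over {m : ℕ} {G : Finset Fm} {A : Fm} : A.vars.card ≤ m → A.OverV m G := by
  induction A with
  | var i => intro _; trivial
  | neg A ih => intro h; exact Or.inr (ih h)
  | or k f ih => intro h; exact Or.inr (fun i => ih i (small_or h i))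
  | mod k f _ => intro h; exact Or.inr h

theorem sbV_small {m : ℕ} {G H : Finset Fm} (hsg : ∀ g ∈ G, ¬ g.vars.card ≤ m) {A : Fm} :
    A.vars.card ≤ m → sbV G H A = A := by
  induction A with
  | var i => intro _; rfl
  | neg A ih =>
    intro h
    have hg : Fm.neg A ∉ G := fun hg => hsg _ hg h
    rw [sbV_neg hg, ih h]
  | or k f ih =>
    intro h
    have hg : Fm.or k f ∉ G := fun hg => hsg _ hg h
    simp only [sbV]
    rw [if_neg hg]
    congr 1
    funext i
    exact ih i (small_or h i)
  | mod k f _ =>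
    intro h
    exact sbV_mod (fun hg => hsg _ hg h)

theorem rk_small {m : ℕ} {A : Fm} (h : A.vars.card ≤ m) : A.depthOver m = 0 := by
  cases A with
  | var i => rfl
  | neg A => simp only [Fm.depthOver]; exact if_pos h
  | or k f => simp only [Fm.depthOver]; exact if_pos h
  | mod k f => simp only [Fm.depthOver]; exact if_pos h

theorem rk_neg {m : ℕ} {A : Fm} (h : ¬ (Fm.neg A).vars.card ≤ m) :
    (Fm.neg A).depthOver m = A.depthOver m + 1 := by
  simp only [Fm.depthOver]; exact if_neg h

theorem rk_or {m k : ℕ} {f : Fin k → Fm} (h : ¬ (Fm.or k f).vars.card ≤ m) :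
    (Fm.or k f).depthOver m = (Finset.univ.sup fun i => (f i).depthOver m) + 1 := by
  simp only [Fm.depthOver]; exact if_neg h

theorem rk_mod {m k : ℕ} {f : Fin k → Fm} (h : ¬ (Fm.mod k f).vars.card ≤ m) :
    (Fm.mod k f).depthOver m = (Finset.univ.sup fun i => (f i).depthOver m) + 1 := by
  simp only [Fm.depthOver]; exact if_neg h

theorem rk_sub {m : ℕ} {A B : Fm} (h : Fm.IsSub B A) : B.depthOver m ≤ A.depthOver m := by
  induction h with
  | refl => exact le_refl _
  | @neg A _ ih =>
    refine ih.trans ?_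
    by_cases hs : (Fm.neg A).vars.card ≤ m
    · rw [rk_small (A := A) hs]; exact Nat.zero_le _
    · rw [rk_neg hs]; omega
  | @or k f i _ ih =>
    refine ih.trans ?_
    by_cases hs : (Fm.or k f).vars.card ≤ m
    · rw [rk_small (small_or hs i)]; exact Nat.zero_le _
    · rw [rk_or hs]
      exact (Finset.le_sup (f := fun i => (f i).depthOver m) (Finset.mem_univ i)).trans
        (Nat.le_succ _)
  | @mod k f i _ ih =>
    refine ih.trans ?_
    by_cases hs : (Fm.mod k f).vars.card ≤ m
    · rw [rk_small (small_mod hs i)]; exact Nat.zero_le _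
    · rw [rk_mod hs]
      exact (Finset.le_sup (f := fun i => (f i).depthOver m) (Finset.mem_univ i)).trans
        (Nat.le_succ _)

theorem rk_lt_of_sub {m : ℕ} {A B : Fm} (h : Fm.IsSub B A) (hne : B ≠ A)
    (hs : ¬ A.vars.card ≤ m) : B.depthOver m < A.depthOver m := by
  cases h with
  | refl => exact absurd rfl hne
  | neg h => rw [rk_neg hs]; exact Nat.lt_succ_of_le (rk_sub h)
  | or i h =>
    rw [rk_or hs]
    exact Nat.lt_succ_of_le ((rk_sub h).trans
      (Finset.le_sup (f := fun i => Fm.depthOver m _) (Finset.mem_univ i)))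
  | mod i h =>
    rw [rk_mod hs]
    exact Nat.lt_succ_of_le ((rk_sub h).trans
      (Finset.le_sup (f := fun i => Fm.depthOver m _) (Finset.mem_univ i)))

section Values

variable {X : Type} (m p : ℕ) (G : Finset Fm) (b : Fm → X → Bool) (x : X)

/-- One step of the evaluation. -/
noncomputable def stepV (v : Fm → Bool) (A : Fm) : Bool :=
  if A.OverV m G ∧ A ∉ G then b (sbV G (G.filter (fun g => v g = true)) A) x else
    match A with
    | .var i => b (.var i) x
    | .neg B => !(v B)
    | .or _ f => b (ovPartV m G (G.filter (fun g => v g = true)) (List.ofFn f)) x ||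
        decide (∃ i, ¬ (f i).OverV m G ∧ v (f i) = true)
    | .mod _ f => decide (p ∣ ∑ i, (v (f i)).toNat)

/-- Iterated evaluation. -/
noncomputable def valsV : ℕ → Fm → Bool
  | 0 => fun _ => false
  | n + 1 => stepV m p G b x (valsV n)

variable {m p G b x}

theorem ovPartV_congr {H H' : Finset Fm} (L : List Fm)
    (h : ∀ z ∈ L, ∀ g ∈ G, Fm.IsSub g z → (g ∈ H ↔ g ∈ H')) :
    ovPartV m G H L = ovPartV m G H' L := by
  unfold ovPartV
  congr 1
  apply List.map_congr_left
  intro z hz
  rw [List.mem_filter] at hz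
  exact sbV_congr z (h z hz.1)

theorem stepV_congr {v v' : Fm → Bool} {A : Fm}
    (h : ∀ B, Fm.IsSub B A → B ≠ A → v B = v' B) : stepV m p G b x v A = stepV m p G b x v' A := by
  unfold stepV
  by_cases hA : A.OverV m G ∧ A ∉ G
  · rw [if_pos hA, if_pos hA]
    congr 1
    refine sbV_congr A ?_
    intro g hg hs
    rw [Finset.mem_filter, Finset.mem_filter, h g hs (fun e => hA.2 (e ▸ hg))]
  · rw [if_neg hA, if_neg hA]
    cases A with
    | var i => rfl
    | neg B =>
      have : v B = v' B := h B (Fm.IsSub.neg Fm.IsSub.refl) (fun e => by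
        have := congrArg Fm.depth e; simp [Fm.depth] at this)
      simp only [this]
    | or k f =>
      have h1 : ∀ i, ∀ B, Fm.IsSub B (f i) → v B = v' B := by
        intro i B hB
        refine h B (Fm.IsSub.or i hB) (fun e => ?_)
        have h2 := depth_sub hB
        have h3 : (f i).depth < (Fm.or k f).depth :=
          Nat.lt_succ_of_le (Finset.le_sup (f := fun i => (f i).depth) (Finset.mem_univ i))
        rw [e] at h2
        omega
      have h2 : ovPartV m G (G.filter (fun g => v g = true)) (List.ofFn f) =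
          ovPartV m G (G.filter (fun g => v' g = true)) (List.ofFn f) := by
        refine ovPartV_congr _ ?_
        intro z hz g hg hs
        rw [List.mem_ofFn] at hz
        obtain ⟨i, rfl⟩ := hz
        rw [Finset.mem_filter, Finset.mem_filter, h1 i g hs]
      have h3 : ∀ i, v (f i) = v' (f i) := fun i => h1 i _ Fm.IsSub.refl
      simp only [h2, h3]
    | mod k f =>
      have h1 : ∀ i, v (f i) = v' (f i) := by
        intro i
        refine h (f i) (Fm.IsSub.mod i Fm.IsSub.refl) (fun e => ?_)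
        have h3 : (f i).depth < (Fm.mod k f).depth :=
          Nat.lt_succ_of_le (Finset.le_sup (f := fun i => (f i).depth) (Finset.mem_univ i))
        rw [e] at h3
        omega
      simp only [h1]

theorem valsV_stable (hsg : ∀ g ∈ G, ¬ g.vars.card ≤ m) (n : ℕ) : ∀ A : Fm,
    A.depthOver m < n → valsV m p G b x n A = valsV m p G b x (n + 1) A := by
  induction n with
  | zero => intro A h; omega
  | succ n ih =>
    intro A hA
    rw [valsV, valsV]
    by_cases hs : A.vars.card ≤ m
    · have hO : A.OverV m G ∧ A ∉ G := ⟨small_over hs, fun hg => hsg _ hg hs⟩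
      unfold stepV
      rw [if_pos hO, if_pos hO, sbV_small hsg hs, sbV_small hsg hs]
    · refine stepV_congr ?_
      intro B hB hne
      exact ih B (by have := rk_lt_of_sub hB hne hs; omega)

end Values

/-- The value of a formula of depth at most `d` at a point. -/
noncomputable def ovalV {X : Type} (m p : ℕ) (G : Finset Fm) (b : Fm → X → Bool) (d : ℕ) (x : X)
    (A : Fm) : Bool := valsV m p G b x (d + 1) A

/-- The true members of `G` at a point. -/
noncomputable def HxV {X : Type} (m p : ℕ) (G : Finset Fm) (b : Fm → X → Bool) (d : ℕ) (x : X) :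
    Finset Fm := G.filter (fun g => ovalV m p G b d x g = true)

variable {X K : Type} [Field K] {𝔉 : Filt X K} {m p : ℕ} {b st : Fm → X → Bool} {G : Finset Fm}
  {d : ℕ}

theorem ovalV_eq (hsg : ∀ g ∈ G, ¬ g.vars.card ≤ m) {A : Fm} (hA : A.depthOver m ≤ d) (x : X) :
    ovalV m p G b d x A = stepV m p G b x (ovalV m p G b d x) A := by
  unfold ovalV
  rw [valsV_stable hsg (d + 1) A (by omega)]
  rfl

theorem HxV_sub (x : X) : HxV m p G b d x ⊆ G := Finset.filter_subset _ _

theorem ovalV_over (hsg : ∀ g ∈ G, ¬ g.vars.card ≤ m) {A : Fm} (hd : A.depthOver m ≤ d) (hA : A.OverV m G) (hG : A ∉ G) (x : X) :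
    ovalV m p G b d x A = b (sbV G (HxV m p G b d x) A) x := by
  rw [ovalV_eq hsg hd]
  unfold stepV
  rw [if_pos ⟨hA, hG⟩]
  rfl

theorem ovalV_neg (hsg : ∀ g ∈ G, ¬ g.vars.card ≤ m) {A : Fm} (hd : (Fm.neg A).depthOver m ≤ d)
    (h : ¬ ((Fm.neg A).OverV m G ∧ Fm.neg A ∉ G)) (x : X) :
    ovalV m p G b d x (.neg A) = !(ovalV m p G b d x A) := by
  rw [ovalV_eq hsg hd]
  unfold stepV
  rw [if_neg h]

theorem ovalV_orL (hsg : ∀ g ∈ G, ¬ g.vars.card ≤ m) {L : List Fm}
    (hd : (Fm.orL L).depthOver m ≤ d) (x : X) :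
    ovalV m p G b d x (Fm.orL L) = (b (ovPartV m G (HxV m p G b d x) L) x ||
      decide (∃ z ∈ L, ¬ z.OverV m G ∧ ovalV m p G b d x z = true)) := by
  by_cases h : (Fm.orL L).OverV m G ∧ Fm.orL L ∉ G
  · rw [ovalV_over hsg hd h.1 h.2, ovPartV_eq h.2 h.1]
    have : ¬ ∃ z ∈ L, ¬ z.OverV m G ∧ ovalV m p G b d x z = true := by
      rintro ⟨z, hz, h1, _⟩
      exact h1 ((overV_orL h.2).1 h.1 z hz)
    simp [this]
  · rw [ovalV_eq hsg hd]
    unfold stepV
    rw [if_neg h]
    simp only [Fm.orL, List.ofFn_get]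
    congr 1
    rw [Bool.eq_iff_iff, decide_eq_true_eq, decide_eq_true_eq,
      exists_get_iff L (fun z => ¬ z.OverV m G ∧ ovalV m p G b d x z = true)]

theorem ovalV_modL (hsg : ∀ g ∈ G, ¬ g.vars.card ≤ m) {L : List Fm}
    (hd : (Fm.modL L).depthOver m ≤ d)
    (h : ¬ ((Fm.modL L).OverV m G ∧ Fm.modL L ∉ G)) (x : X) :
    ovalV m p G b d x (Fm.modL L) =
      decide (p ∣ (L.map (fun z => (ovalV m p G b d x z).toNat)).sum) := by
  rw [ovalV_eq hsg hd]
  unfold stepV
  rw [if_neg h]
  simp only [Fm.modL]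
  rw [sum_get L (fun z => (ovalV m p G b d x z).toNat)]

/-- Hypotheses of the simulation. -/
structure SmlHyp (𝔉 : Filt X K) (Ax : Set (X → K)) (m p w D0 t g0 : ℕ) (G : Finset Fm) (S : Set Fm)
    (Γ : Set Fm) (b st : Fm → X → Bool) (T F : Fm → X → Prop) : Prop where
  sub : ∀ A ∈ S, ∀ B, Fm.IsSub B A → B ∈ S
  gs : ∀ g ∈ G, g ∈ S
  gv : ∀ i, Fm.var i ∉ G
  gsm : ∀ g ∈ G, ¬ g.vars.card ≤ m
  loc : ∀ A ∈ S, (G.filter (fun g => Fm.IsSub g A)).card ≤ g0
  ov : ∀ A ∈ S, A.OverV m G → ∀ H ⊆ G, sbV G H A ∈ Γ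
  ovp : ∀ L, Fm.orL L ∈ S → ∀ H ⊆ G, ovPartV m G H L ∈ Γ
  nil : Fm.orL [] ∈ Γ
  few : ∀ (k : ℕ) (f : Fin k → Fm), Fm.or k f ∈ S →
    ((Finset.univ.image f).filter (fun z => ¬ z.OverV m G)).card ≤ t
  bdeg : ∀ A ∈ Γ, ind K (b A) ∈ 𝔉.LD D0
  sdeg : ∀ A ∈ Γ, ind K (st A) ∈ 𝔉.LD D0
  sder : ∀ A ∈ Γ, Der 𝔉 Ax w (ind K (st A))
  semT : ∀ A ∈ Γ, ∀ x, b A x = true → T A x
  semF : ∀ A ∈ Γ, ∀ x, st A x = false → b A x = false → F A x
  cons : ∀ A ∈ Γ, ∀ x, T A x → F A x → False
  tneg : ∀ A x, T (.neg A) x ↔ F A x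
  fneg : ∀ A x, F (.neg A) x ↔ T A x
  tor : ∀ L x, T (Fm.orL L) x ↔ ∃ z ∈ L, T z x
  fnil : ∀ x, F (Fm.orL []) x
  md : ∀ L, Fm.modL L ∈ S → (Fm.modL L).vars.card ≤ m → ∀ x, st (Fm.modL L) x = false →
    b (Fm.modL L) x = decide (p ∣ (L.map (fun z => (b z x).toNat)).sum)

variable {Ax : Set (X → K)} {w D0 t g0 : ℕ} {S Γ : Set Fm} {T F : Fm → X → Prop}

/-- Degree of a composition in which only the members of `G` in a small set matter. -/
theorem SmlHyp.comp_deg (H : SmlHyp 𝔉 Ax m p w D0 t g0 G S Γ b st T F) {D : ℕ}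
    {G' : Finset Fm} (hG' : G' ⊆ G) (hg0 : G'.card ≤ g0)
    (hdeg : ∀ g ∈ G', ind K (fun x => ovalV m p G b d x g) ∈ 𝔉.LD D)
    (c : Finset Fm → Fm) (hc : ∀ H' ⊆ G, c H' ∈ Γ)
    (hcc : ∀ x, c (HxV m p G b d x) = c (G'.filter (fun g => ovalV m p G b d x g = true))) :
    ind K (fun x => b (c (HxV m p G b d x)) x) ∈ 𝔉.LD (g0 * D + D0) := by
  have h1 := pat_mem (𝔉 := 𝔉) (D := D) (D0 := D0) (fun g x => ovalV m p G b d x g)
    G' hdeg (fun H' x => b (c H') x)
    (fun H' hH' => H.bdeg _ (hc H' (hH'.trans hG')))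
  have e : (fun x => b (c (HxV m p G b d x)) x) = (fun x => b (c
      (G'.filter (fun g => ovalV m p G b d x g = true))) x) := by
    funext x; rw [hcc x]
  rw [e]
  refine 𝔉.mono ?_ h1
  exact Nat.add_le_add_right (Nat.mul_le_mul_right _ hg0) _

theorem HxV_mem_iff (x : X) {G' : Finset Fm} (hG' : G' ⊆ G) {g : Fm} (hg : g ∈ G') :
    g ∈ HxV m p G b d x ↔ g ∈ G'.filter (fun g => ovalV m p G b d x g = true) := by
  rw [HxV, Finset.mem_filter, Finset.mem_filter]
  exact ⟨fun h => ⟨hg, h.2⟩, fun h => ⟨hG' hg, h.2⟩⟩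

theorem SmlHyp.deg [hp : Fact p.Prime] [CharP K p]
    (H : SmlHyp 𝔉 Ax m p w D0 t g0 G S Γ b st T F) {κ : ℕ} (hκp : p ≤ κ) (hκt : t + g0 + 1 ≤ κ)
    (hd : ∀ A ∈ S, A.depthOver m ≤ d) (n : ℕ) : ∀ A ∈ S, A.depthOver m ≤ n →
    ind K (fun x => ovalV m p G b d x A) ∈ 𝔉.LD (κ ^ n * D0) := by
  have hκ1 : 1 ≤ κ := by omega
  induction n with
  | zero =>
    intro A hA hn
    have hA2 : A.OverV m G ∧ A ∉ G ∧ ∀ H', sbV G H' A = A := by
      by_cases hs : A.vars.card ≤ m
      · exact ⟨small_over hs, fun hg => H.gsm _ hg hs, fun H' => sbV_small H.gsm hs⟩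
      · cases A with
        | var i => exact ⟨trivial, H.gv i, fun H' => rfl⟩
        | neg A => rw [rk_neg hs] at hn; omega
        | or k f => rw [rk_or hs] at hn; omega
        | mod k f => rw [rk_mod hs] at hn; omega
    obtain ⟨hO, hG, hsb⟩ := hA2
    have e : (fun x => ovalV m p G b d x A) = b A := by
      funext x
      rw [ovalV_over H.gsm (hd _ hA) hO hG, hsb]
    rw [e]
    have := H.bdeg _ (H.ov _ hA hO ∅ (by simp))
    rw [hsb] at this
    simpa using this
  | succ n ih =>
    intro A hA hn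
    have hb : κ ^ n * D0 ≤ κ ^ (n + 1) * D0 :=
      Nat.mul_le_mul_right _ (Nat.pow_le_pow_right hκ1 (Nat.le_succ _))
    have hgdeg : ∀ g ∈ G, g.depthOver m < n + 1 →
        ind K (fun x => ovalV m p G b d x g) ∈ 𝔉.LD (κ ^ n * D0) := by
      intro g hg hgn
      exact ih g (H.gs g hg) (by omega)
    set G' : Finset Fm := G.filter (fun g => Fm.IsSub g A ∧ g.depthOver m < n + 1) with hG'
    have hG'G : G' ⊆ G := Finset.filter_subset _ _
    have hG'c : G'.card ≤ g0 := by
      refine le_trans (Finset.card_le_card ?_) (H.loc A hA)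
      intro g hg
      rw [hG', Finset.mem_filter] at hg
      exact Finset.mem_filter.2 ⟨hg.1, hg.2.1⟩
    have hG'd : ∀ g ∈ G', ind K (fun x => ovalV m p G b d x g) ∈ 𝔉.LD (κ ^ n * D0) := by
      intro g hg
      rw [hG', Finset.mem_filter] at hg
      exact hgdeg g hg.1 hg.2.2
    have hD0 : D0 ≤ κ ^ n * D0 := Nat.le_mul_of_pos_left _ (Nat.pow_pos (by omega))
    have htot : g0 * (κ ^ n * D0) + D0 + t * (κ ^ n * D0) ≤ κ ^ (n + 1) * D0 := by
      calc g0 * (κ ^ n * D0) + D0 + t * (κ ^ n * D0) ≤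
            g0 * (κ ^ n * D0) + κ ^ n * D0 + t * (κ ^ n * D0) := by omega
        _ = (t + g0 + 1) * (κ ^ n * D0) := by ring
        _ ≤ κ * (κ ^ n * D0) := Nat.mul_le_mul_right _ hκt
        _ = κ ^ (n + 1) * D0 := by ring
    by_cases hO : A.OverV m G ∧ A ∉ G
    · have e : (fun x => ovalV m p G b d x A) = (fun x => b (sbV G (HxV m p G b d x) A) x) := by
        funext x; exact ovalV_over H.gsm (hd A hA) hO.1 hO.2 x
      rw [e]
      refine 𝔉.mono ?_ (H.comp_deg hG'G hG'c hG'd (fun H' => sbV G H' A)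
        (fun H' hH' => H.ov A hA hO.1 H' hH') ?_)
      · omega
      · intro x
        refine sbV_congr A ?_
        intro g hg hs
        exact HxV_mem_iff x hG'G (Finset.mem_filter.2 ⟨hg, hs, by
          have := rk_lt_of_sub hs (fun e => hO.2 (e ▸ hg))
            (fun hsm => H.gsm g hg ((Finset.card_le_card (vars_sub hs)).trans hsm))
          omega⟩)
    · have hlarge : ¬ A.vars.card ≤ m :=
        fun hs => hO ⟨small_over hs, fun hg => H.gsm _ hg hs⟩
      cases A with
      | var i => exact absurd ⟨trivial, H.gv i⟩ hO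
      | neg B =>
        have e : (fun x => ovalV m p G b d x (.neg B)) = (fun x => !(ovalV m p G b d x B)) := by
          funext x; exact ovalV_neg H.gsm (hd _ hA) hO x
        rw [e, ind_not]
        refine Submodule.sub_mem _ (𝔉.one_mem' _) (𝔉.mono hb (ih B
          (H.sub _ hA _ (Fm.IsSub.neg Fm.IsSub.refl)) ?_))
        rw [rk_neg hlarge] at hn; omega
      | or k f =>
        have hfd : ∀ i, (f i).depthOver m ≤ n := by
          intro i
          have := Finset.le_sup (f := fun i => (f i).depthOver m) (Finset.mem_univ i)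
          rw [rk_or hlarge] at hn; omega
        have hofFn : Fm.orL (List.ofFn f) ∈ S := by rw [orL_ofFn]; exact hA
        have e : ind K (fun x => ovalV m p G b d x (.or k f)) = 1 - (1 - ind K (fun x =>
            b (ovPartV m G (HxV m p G b d x) (List.ofFn f)) x)) *
            ∏ z ∈ (Finset.univ.image f).filter (fun z => ¬ z.OverV m G),
              (1 - ind K (fun x => ovalV m p G b d x z)) := by
          funext x
          have hval := ovalV_orL (m := m) (p := p) (G := G) (b := b) (L := List.ofFn f) H.gsm (hd _ hofFn) x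
          rw [orL_ofFn] at hval
          simp only [Pi.sub_apply, Pi.mul_apply, Pi.one_apply, Finset.prod_apply]
          by_cases h1 : b (ovPartV m G (HxV m p G b d x) (List.ofFn f)) x = true
          · simp [ind, hval, h1]
          · have h1' : b (ovPartV m G (HxV m p G b d x) (List.ofFn f)) x = false := by simpa using h1
            by_cases h2 : ∃ z ∈ List.ofFn f, ¬ z.OverV m G ∧ ovalV m p G b d x z = true
            · obtain ⟨z, hz, hz1, hz2⟩ := h2
              rw [Finset.prod_eq_zero (i := z)]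
              · have : ∃ z ∈ List.ofFn f, ¬ z.OverV m G ∧ ovalV m p G b d x z = true :=
                  ⟨z, hz, hz1, hz2⟩
                rw [h1', Bool.false_or, decide_eq_true this] at hval
                simp [ind, hval]
              · rw [List.mem_ofFn] at hz
                obtain ⟨i, rfl⟩ := hz
                simp [hz1]
              · simp [ind, hz2]
            · rw [Finset.prod_eq_one]
              · rw [h1', Bool.false_or, decide_eq_false h2] at hval
                simp [ind, hval, h1']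
              · intro z hz
                rw [Finset.mem_filter, Finset.mem_image] at hz
                obtain ⟨⟨i, _, rfl⟩, hz2⟩ := hz
                have : ovalV m p G b d x (f i) = false := by
                  by_contra hcon
                  exact h2 ⟨f i, List.mem_ofFn.2 ⟨i, rfl⟩, hz2, by simpa using hcon⟩
                simp [ind, this]
        rw [e]
        refine Submodule.sub_mem _ (𝔉.one_mem' _) ?_
        have h1 : (1 : X → K) - ind K (fun x =>
            b (ovPartV m G (HxV m p G b d x) (List.ofFn f)) x) ∈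
            𝔉.LD (g0 * (κ ^ n * D0) + D0) := by
          refine Submodule.sub_mem _ (𝔉.one_mem' _) (H.comp_deg hG'G hG'c hG'd
            (fun H' => ovPartV m G H' (List.ofFn f)) (fun H' hH' => H.ovp _ hofFn H' hH') ?_)
          intro x
          refine ovPartV_congr _ ?_
          intro z hz g hg hs
          rw [List.mem_ofFn] at hz
          obtain ⟨i, rfl⟩ := hz
          exact HxV_mem_iff x hG'G (Finset.mem_filter.2 ⟨hg, Fm.IsSub.or i hs, by
            have h3 := rk_sub (m := m) hs
            have h4 := hfd i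
            omega⟩)
        have h2 : ∀ z ∈ (Finset.univ.image f).filter (fun z => ¬ z.OverV m G),
            (1 : X → K) - ind K (fun x => ovalV m p G b d x z) ∈ 𝔉.LD (κ ^ n * D0) := by
          intro z hz
          rw [Finset.mem_filter, Finset.mem_image] at hz
          obtain ⟨⟨i, _, rfl⟩, _⟩ := hz
          exact Submodule.sub_mem _ (𝔉.one_mem' _)
            (ih _ (H.sub _ hA _ (Fm.IsSub.or i Fm.IsSub.refl)) (hfd i))
        refine 𝔉.mono ?_ (𝔉.mul_mem h1 (𝔉.prod_mem _ _ _ h2))
        refine le_trans ?_ htot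
        exact Nat.add_le_add_left (Nat.mul_le_mul_right _ (H.few k f hA)) _
      | mod k f =>
        have hfd : ∀ i, (f i).depthOver m ≤ n := by
          intro i
          have := Finset.le_sup (f := fun i => (f i).depthOver m) (Finset.mem_univ i)
          rw [rk_mod hlarge] at hn; omega
        have e : ind K (fun x => ovalV m p G b d x (.mod k f)) =
            1 - (∑ i, ind K (fun x => ovalV m p G b d x (f i))) ^ (p - 1) := by
          have h : (∑ i, ind K (fun x => ovalV m p G b d x (f i))) =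
              (fun x => ((∑ i, (ovalV m p G b d x (f i)).toNat : ℕ) : K)) := by
            funext x
            simp only [Finset.sum_apply, ind]
            push_cast
            refine Finset.sum_congr rfl (fun i _ => ?_)
            by_cases hb : ovalV m p G b d x (f i) = true <;> simp [hb]
          rw [h, ← ind_dvd]
          congr 1
          funext x
          rw [ovalV_eq H.gsm (hd _ hA)]
          unfold stepV
          rw [if_neg hO]
        rw [e]
        refine Submodule.sub_mem _ (𝔉.one_mem' _) ?_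
        have h1 : ∀ i ∈ (Finset.univ : Finset (Fin k)), ind K (fun x => ovalV m p G b d x (f i)) ∈
            𝔉.LD (κ ^ n * D0) := fun i _ =>
          ih _ (H.sub _ hA _ (Fm.IsSub.mod i Fm.IsSub.refl)) (hfd i)
        refine 𝔉.mono ?_ (𝔉.pow_mem (𝔉.sum_mem Finset.univ _ _ h1) (p - 1))
        calc (p - 1) * (κ ^ n * D0) ≤ κ * (κ ^ n * D0) := Nat.mul_le_mul_right _ (by omega)
          _ = κ ^ (n + 1) * D0 := by ring

end Pool.Agent.Helper21.Sml
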